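import Mathlib

set_option autoImplicit false

namespace Pool.Agent.W2helper95.TQ

open NumberField IsDedekindDomain Ideal

/-- `ℤ[ζ₁₂]` is a principal ideal domain -/
theorem pid12 (M : Type) [Field M] [NumberField M] [IsCyclotomicExtension {12} ℚ M] :
    IsPrincipalIdealRing (𝓞 M) := by
  apply RingOfIntegers.isPrincipalIdealRing_of_abs_discr_lt
  have h1 : (discr M).natAbs = 144 := by
    rw [IsCyclotomicExtension.Rat.natAbs_discr (n := 12) M]
    have : (12 : ℕ).primeFactors = {2, 3} := by decide +kernel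
    rw [this]
    have h2 : Nat.totient 12 = 4 := by decide +kernel
    rw [h2]
    norm_num
  have h2 : |discr M| = 144 := by
    rw [Int.abs_eq_natAbs, h1]
    rfl
  have h3 : Nat.totient 12 = 4 := by decide +kernel
  rw [h2, IsCyclotomicExtension.finrank (n := 12) M
    (Polynomial.cyclotomic.irreducible_rat (by norm_num)),
    IsCyclotomicExtension.Rat.nrComplexPlaces_eq_totient_div_two 12, h3]
  have h4 : ((4 / 2 : ℕ)) = 2 := by norm_num
  have h5 : Nat.factorial 4 = 24 := by decide
  rw [h4, h5]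
  have hpi := Real.pi_gt_three
  have h6 : (3.1 : ℝ) < Real.pi := by
    have := Real.pi_gt_d2
    linarith
  push_cast
  have h7 : ((3.1 : ℝ) / 4) ^ 2 < (Real.pi / 4) ^ 2 := by
    gcongr
  have h8 : (12 : ℝ) < 2 * (Real.pi / 4) ^ 2 * (4 ^ 4 / 24) := by
    have : (12 : ℝ) < 2 * ((3.1 : ℝ) / 4) ^ 2 * (4 ^ 4 / 24) := by norm_num
    refine this.trans ?_
    gcongr
  calc (144 : ℝ) = 12 ^ 2 := by norm_num
    _ < _ := by gcongr

end Pool.Agent.W2helper95.TQ
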