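import Mathlib

set_option autoImplicit false

namespace Pool.Agent.W2helper95.TQ

open NumberField IsDedekindDomain Ideal WithZero

/-- an element whose valuations are divisible by three is a unit times a cube -/
theorem cube_int {R K : Type} [CommRing R] [IsPrincipalIdealRing R]
    [IsDedekindDomain R] [Field K] [Algebra R K] [IsFractionRing R K] :
    ∀ z : R, z ≠ 0 → (∀ w : HeightOneSpectrum R, ∃ a : K,
      w.valuation K (algebraMap R K z * a ^ 3) = 1) → ∃ (u : Rˣ) (b : R), z = u * b ^ 3 := by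
  intro z
  induction z using (wellFounded_dvdNotUnit (α := R)).induction with
  | _ z ih =>
  intro hz h
  by_cases hu : IsUnit z
  · obtain ⟨u, rfl⟩ := hu
    exact ⟨u, 1, by ring⟩
  obtain ⟨p, hp, hpz⟩ := WfDvdMonoid.exists_irreducible_factor hu hz
  have hpp : Prime p := UniqueFactorizationMonoid.irreducible_iff_prime.1 hp
  let w : HeightOneSpectrum R := ⟨span {p}, (span_singleton_prime hpp.ne_zero).2 hpp, by
    rw [Ne, span_singleton_eq_bot]; exact hpp.ne_zero⟩
  obtain ⟨a, ha⟩ := h w
  have ha0 : a ≠ 0 := by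
    rintro rfl
    simp at ha
  have hva : w.valuation K a ≠ 0 := (Valuation.ne_zero_iff _).2 ha0
  obtain ⟨j, hj⟩ : ∃ j : ℤ, w.valuation K a = exp j := by
    obtain ⟨x, hx⟩ := WithZero.ne_zero_iff_exists.1 hva
    exact ⟨Multiplicative.toAdd x, by rw [← hx]; rfl⟩
  have hvz : w.intValuation z = exp (-(3 * j)) := by
    rw [map_mul, map_pow, hj, HeightOneSpectrum.valuation_of_algebraMap] at ha
    rw [← exp_nsmul] at ha
    have h1 : w.intValuation z = (exp ((3 : ℕ) • j))⁻¹ := eq_inv_of_mul_eq_one_left ha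
    rw [h1, ← exp_neg]
    congr 1
  have hlt : w.intValuation z < 1 := by
    rw [HeightOneSpectrum.intValuation_lt_one_iff_mem]
    exact mem_span_singleton.2 hpz
  have hj1 : 1 ≤ j := by
    rw [hvz, ← exp_zero, exp_lt_exp] at hlt
    omega
  have h3 : p ^ 3 ∣ z := by
    have h4 : w.intValuation z ≤ exp (-((3 : ℕ) : ℤ)) := by
      rw [hvz, exp_le_exp]
      push_cast
      omega
    rw [HeightOneSpectrum.intValuation_le_pow_iff_mem] at h4
    have h5 : w.asIdeal ^ 3 = span {p ^ 3} := by
      show (span {p}) ^ 3 = _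
      rw [span_singleton_pow]
    rw [h5] at h4
    exact mem_span_singleton.1 h4
  obtain ⟨z', rfl⟩ := h3
  have hz' : z' ≠ 0 := right_ne_zero_of_mul hz
  obtain ⟨u, b, hub⟩ := ih z' ⟨hz', p ^ 3, by
    rw [isUnit_pow_iff (by norm_num)]; exact hpp.not_isUnit, by ring⟩ hz' (by
      intro w'
      obtain ⟨a', ha'⟩ := h w'
      refine ⟨algebraMap R K p * a', ?_⟩
      rw [← ha']
      congr 1
      rw [map_mul, map_pow]
      ring)
  exact ⟨u, p * b, by rw [hub]; ring⟩

/-- the version for the field of fractions -/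
theorem cube_frac {R K : Type} [CommRing R] [IsPrincipalIdealRing R]
    [IsDedekindDomain R] [Field K] [Algebra R K] [IsFractionRing R K] (m : K) (hm : m ≠ 0)
    (h : ∀ w : HeightOneSpectrum R, ∃ a : K, w.valuation K (m * a ^ 3) = 1) :
    ∃ (u : Rˣ) (b : K), b ≠ 0 ∧ m = algebraMap R K u * b ^ 3 := by
  obtain ⟨x, y, hy, rfl⟩ := IsFractionRing.div_surjective (A := R) m
  have hy0 : y ≠ 0 := nonZeroDivisors.ne_zero hy
  have hyK : algebraMap R K y ≠ 0 := by
    simpa using hy0
  have hx0 : x ≠ 0 := by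
    rintro rfl
    simp at hm
  obtain ⟨u, b, hub⟩ := cube_int (K := K) (x * y ^ 2) (mul_ne_zero hx0 (pow_ne_zero 2 hy0)) (by
    intro w
    obtain ⟨a, ha⟩ := h w
    refine ⟨a / algebraMap R K y, ?_⟩
    rw [← ha]
    congr 1
    rw [map_mul, map_pow]
    field_simp)
  have hb0 : b ≠ 0 := by
    rintro rfl
    have := mul_ne_zero hx0 (pow_ne_zero 2 hy0)
    rw [hub] at this
    simp at this
  refine ⟨u, algebraMap R K b / algebraMap R K y, div_ne_zero (by simpa using hb0) hyK, ?_⟩
  have h1 := congrArg (algebraMap R K) hub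
  rw [map_mul, map_mul, map_pow, map_pow] at h1
  rw [div_pow, mul_div_assoc', ← h1]
  field_simp

end Pool.Agent.W2helper95.TQ
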