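import Mathlib

set_option autoImplicit false

namespace Pool.Agent.W2helper95.TQ

section ring

variable {R : Type} [CommRing R] {i w : R}

lemma theta_sq (hw : w ^ 2 + w + 1 = 0) : (2 * w + 1) ^ 2 = (-3 : R) := by
  linear_combination 4 * hw

lemma w_pow (hw : w ^ 2 + w + 1 = 0) (a : ℕ) :
    ∃ r : R, (w ^ 8) ^ a = 1 + a * (2 * w + 1) + 3 * r := by
  have h3 : w ^ 3 = 1 := by linear_combination (w - 1) * hw
  have h8 : w ^ 8 = 1 + (2 * w + 1) + 3 * (-(1 + w)) := by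
    have : w ^ 8 = w ^ 2 := by
      calc w ^ 8 = (w ^ 3) ^ 2 * w ^ 2 := by ring
        _ = w ^ 2 := by rw [h3]; ring
    rw [this]
    linear_combination hw
  induction a with
  | zero => exact ⟨0, by simp⟩
  | succ a ih =>
    obtain ⟨r, hr⟩ := ih
    refine ⟨r + (-(1 + w)) + (2 * w + 1) * r + (1 + w) * (-(a * (2 * w + 1)) - 3 * r) - a, ?_⟩
    rw [pow_succ, hr, h8]
    push_cast
    have hθ := theta_sq hw
    linear_combination (a : R) * hθ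

lemma e_pow (hi : i ^ 2 = -1) (hw : w ^ 2 + w + 1 = 0) (b : ℕ) :
    ∃ r : R, ((2 - i * (2 * w + 1)) ^ 8) ^ b = 1 - b * (i * (2 * w + 1)) + 3 * r := by
  obtain ⟨s, hs⟩ : ∃ s, s = i * (2 * w + 1) := ⟨_, rfl⟩
  have hs2 : s ^ 2 = 3 := by
    rw [hs, mul_pow, hi, theta_sq hw]
    ring
  rw [← hs]
  have h8 : (2 - s) ^ 8 = 1 - s + 3 * (6272 - 3621 * s) := by
    have h2 : (2 - s) ^ 2 = 7 - 4 * s := by linear_combination hs2
    have h4 : (2 - s) ^ 4 = 97 - 56 * s := by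
      calc (2 - s) ^ 4 = ((2 - s) ^ 2) ^ 2 := by ring
        _ = (7 - 4 * s) ^ 2 := by rw [h2]
        _ = 97 - 56 * s := by linear_combination 16 * hs2
    calc (2 - s) ^ 8 = ((2 - s) ^ 4) ^ 2 := by ring
      _ = (97 - 56 * s) ^ 2 := by rw [h4]
      _ = _ := by linear_combination 3136 * hs2
  induction b with
  | zero => exact ⟨0, by simp⟩
  | succ b ih =>
    obtain ⟨r, hr⟩ := ih
    refine ⟨(6272 - 3621 * s) * (1 - b * s) + r * (1 - s) + 3 * r * (6272 - 3621 * s) + b, ?_⟩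
    rw [pow_succ, hr, h8]
    push_cast
    linear_combination (b : R) * hs2

/-- the classes of `w ^ a * ε ^ b` -/
lemma class_eq [IsDomain R] (h30 : (3 : R) ≠ 0)
    (h3 : ∀ n : ℤ, (3 : R) ∣ (n : R) → (3 : ℤ) ∣ n) (hi : i ^ 2 = -1) (hw : w ^ 2 + w + 1 = 0)
    (a b : ℕ) (h : (3 : R) ∣ (w ^ a * (2 - i * (2 * w + 1)) ^ b) ^ 8 - 1) :
    3 ∣ a ∧ 3 ∣ b := by
  obtain ⟨r, hr⟩ := w_pow hw a
  obtain ⟨r', hr'⟩ := e_pow hi hw b
  obtain ⟨θ, hθ⟩ : ∃ θ, θ = 2 * w + 1 := ⟨_, rfl⟩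
  have hθ2 : θ ^ 2 = -3 := by rw [hθ]; exact theta_sq hw
  rw [← hθ] at h hr hr'
  obtain ⟨q, hq⟩ := h
  have h1 : (w ^ a * (2 - i * θ) ^ b) ^ 8 = (w ^ 8) ^ a * ((2 - i * θ) ^ 8) ^ b := by
    rw [mul_pow, ← pow_mul, ← pow_mul, ← pow_mul, ← pow_mul, mul_comm a 8, mul_comm b 8]
  rw [h1, hr, hr'] at hq
  -- `3` divides `(a - b i) θ`
  have h2 : (3 : R) ∣ (a - b * i) * θ := by
    refine ⟨q - r' * (1 + a * θ + 3 * r) - r * (1 - b * (i * θ)) - a * b * i, ?_⟩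
    linear_combination hq + (a * b * i : R) * hθ2
  have hθ0 : θ ≠ 0 := by
    rintro rfl
    apply h30
    linear_combination hθ2
  have h4 : θ ∣ ((a : R) - b * i) := by
    obtain ⟨t, ht⟩ := h2
    refine ⟨-t, ?_⟩
    apply mul_right_cancel₀ hθ0
    rw [ht]
    linear_combination (t : R) * hθ2
  obtain ⟨t, ht⟩ := h4
  have h5 : (3 : R) ∣ (((a : ℤ) ^ 2 + (b : ℤ) ^ 2) ^ 2 : ℤ) := by
    refine ⟨-(t * (a + b * i)) ^ 2, ?_⟩
    push_cast
    have h6 : (a : R) ^ 2 + (b : R) ^ 2 = θ * (t * (a + b * i)) := by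
      calc (a : R) ^ 2 + (b : R) ^ 2 = (a - b * i) * (a + b * i) := by
            linear_combination (b : R) ^ 2 * hi
        _ = _ := by rw [ht]; ring
    rw [h6]
    linear_combination (t * (a + b * i)) ^ 2 * hθ2
  have h6 := h3 _ h5
  have h7 : (3 : ℤ) ∣ (a : ℤ) ^ 2 + (b : ℤ) ^ 2 := Int.prime_three.dvd_of_dvd_pow h6
  have h8 : ((a : ℤ) % 3 = 0 ∧ (b : ℤ) % 3 = 0) := by
    have ha : (a : ℤ) % 3 = 0 ∨ (a : ℤ) % 3 = 1 ∨ (a : ℤ) % 3 = 2 := by omega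
    have hb : (b : ℤ) % 3 = 0 ∨ (b : ℤ) % 3 = 1 ∨ (b : ℤ) % 3 = 2 := by omega
    have h9 := Int.emod_eq_zero_of_dvd h7
    rcases ha with ha | ha | ha <;> rcases hb with hb | hb | hb <;>
      simp [pow_two, Int.add_emod, Int.mul_emod, ha, hb] at h9 ⊢
  omega

end ring

/-- the linear algebra modulo three -/
lemma fin3 : ∀ j1 k1 j2 k2 : ZMod 3,
    (∃ a b : ZMod 3, (a ≠ 0 ∨ b ≠ 0) ∧ a * j1 + b * j2 = 0 ∧ a * k1 + b * k2 = 0) ∨
    ∀ j k : ZMod 3, ∃ a b : ZMod 3, a * j1 + b * j2 = j ∧ a * k1 + b * k2 = k := by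
  decide +kernel

/-- A commutative group with two generators: if the classes of `x ^ a * y ^ b` modulo cubes are
different then they are all the classes. -/
theorem classes {G : Type} [CommGroup G] (τ η x y : G) (hg : ∀ u : G, ∃ j k : ℤ, u = τ ^ j * η ^ k)
    (hxy : ∀ a b : ℕ, (∃ c : G, x ^ a * y ^ b = c ^ 3) → 3 ∣ a ∧ 3 ∣ b) (u : G) :
    ∃ (a b : ℕ) (c : G), u = x ^ a * y ^ b * c ^ 3 := by
  obtain ⟨j1, k1, hx⟩ := hg x
  obtain ⟨j2, k2, hy⟩ := hg y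
  obtain ⟨j, k, hu⟩ := hg u
  have key : ∀ (a b : ℕ) (J K : ℤ), ((a : ZMod 3) * j1 + b * j2 = J) → ((a : ZMod 3) * k1 + b * k2 = K) →
      ∃ c : G, τ ^ J * η ^ K = x ^ a * y ^ b * c ^ 3 := by
    intro a b J K h1 h2
    have h3 : (3 : ℤ) ∣ J - (a * j1 + b * j2) := by
      rw [← Int.modEq_iff_dvd]
      have : (((a * j1 + b * j2 : ℤ)) : ZMod 3) = ((J : ℤ) : ZMod 3) := by
        push_cast
        exact h1
      exact (ZMod.intCast_eq_intCast_iff _ _ 3).1 this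
    have h4 : (3 : ℤ) ∣ K - (a * k1 + b * k2) := by
      rw [← Int.modEq_iff_dvd]
      have : (((a * k1 + b * k2 : ℤ)) : ZMod 3) = ((K : ℤ) : ZMod 3) := by
        push_cast
        exact h2
      exact (ZMod.intCast_eq_intCast_iff _ _ 3).1 this
    obtain ⟨p, hp⟩ := h3
    obtain ⟨q, hq⟩ := h4
    refine ⟨τ ^ p * η ^ q, ?_⟩
    have e1 : J = (a * j1 + b * j2) + 3 * p := by omega
    have e2 : K = (a * k1 + b * k2) + 3 * q := by omega
    rw [e1, e2, hx, hy]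
    have e3 : (τ ^ j1 * η ^ k1) ^ a = τ ^ ((a : ℤ) * j1) * η ^ ((a : ℤ) * k1) := by
      rw [← zpow_natCast, mul_zpow, ← zpow_mul, ← zpow_mul, mul_comm j1, mul_comm k1]
    have e4 : (τ ^ j2 * η ^ k2) ^ b = τ ^ ((b : ℤ) * j2) * η ^ ((b : ℤ) * k2) := by
      rw [← zpow_natCast, mul_zpow, ← zpow_mul, ← zpow_mul, mul_comm j2, mul_comm k2]
    have e5 : (τ ^ p * η ^ q) ^ 3 = τ ^ (3 * p) * η ^ (3 * q) := by
      rw [← zpow_natCast, mul_zpow, ← zpow_mul, ← zpow_mul, mul_comm p, mul_comm q]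
      rfl
    rw [e3, e4, e5, zpow_add, zpow_add, zpow_add, zpow_add]
    simp only [mul_comm, mul_left_comm, mul_assoc]
  rcases fin3 j1 k1 j2 k2 with ⟨a, b, hab, h1, h2⟩ | h
  · exfalso
    obtain ⟨c, hc⟩ := key a.val b.val 0 0 (by
      rw [ZMod.natCast_val, ZMod.natCast_val, ZMod.cast_id, ZMod.cast_id, h1]
      simp) (by
      rw [ZMod.natCast_val, ZMod.natCast_val, ZMod.cast_id, ZMod.cast_id, h2]
      simp)
    have h5 := hxy a.val b.val ⟨c⁻¹, by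
      rw [inv_pow]
      apply eq_inv_of_mul_eq_one_left
      rw [← hc]
      simp⟩
    have ha := ZMod.val_lt a
    have hb := ZMod.val_lt b
    have ha0 : a.val = 0 := by omega
    have hb0 : b.val = 0 := by omega
    rw [ZMod.val_eq_zero] at ha0 hb0
    rcases hab with h | h
    · exact h ha0
    · exact h hb0
  · obtain ⟨a, b, h1, h2⟩ := h j k
    obtain ⟨c, hc⟩ := key a.val b.val j k (by
      rw [ZMod.natCast_val, ZMod.natCast_val, ZMod.cast_id, ZMod.cast_id, h1]) (by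
      rw [ZMod.natCast_val, ZMod.natCast_val, ZMod.cast_id, ZMod.cast_id, h2])
    exact ⟨a.val, b.val, c, by rw [hu, hc]⟩

end Pool.Agent.W2helper95.TQ
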