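import Mathlib
import Pool.Agent.W2helper95.TQ.A4c

set_option autoImplicit false

namespace Pool.Agent.W2helper95.TQ

open NumberField IsDedekindDomain Ideal WithZero

variable {M : Type} [Field M] [NumberField M]

/-- the units are generated by two elements -/
theorem gens (hM : IsCyclotomicExtension {12} ℚ M) :
    ∃ τ η : (𝓞 M)ˣ, ∀ u : (𝓞 M)ˣ, ∃ j k : ℤ, u = τ ^ j * η ^ k := by
  have h12 : Nat.totient 12 = 4 := by decide +kernel
  have hrank : Units.rank M = 1 := by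
    unfold Units.rank
    rw [InfinitePlace.card_eq_nrRealPlaces_add_nrComplexPlaces,
      IsCyclotomicExtension.Rat.nrRealPlaces_eq_zero (n := 12) M (by norm_num),
      IsCyclotomicExtension.Rat.nrComplexPlaces_eq_totient_div_two 12, h12]
  obtain ⟨τ, hτ⟩ := IsCyclic.exists_generator (α := Units.torsion M)
  have i0 : Fin (Units.rank M) := ⟨0, by omega⟩
  have : Subsingleton (Fin (Units.rank M)) := by
    rw [hrank]
    infer_instance
  refine ⟨τ, Units.fundSystem M i0, fun u => ?_⟩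
  obtain ⟨⟨t, e⟩, h, -⟩ := Units.exist_unique_eq_mul_prod M u
  obtain ⟨j, hj⟩ := Subgroup.mem_zpowers_iff.1 (hτ t)
  refine ⟨j, e i0, ?_⟩
  rw [h]
  simp only
  rw [Fintype.prod_subsingleton _ i0, ← hj]
  simp

/-- integers divisible by three -/
lemma three_dvd (n : ℤ) (h : (3 : 𝓞 M) ∣ (n : 𝓞 M)) : (3 : ℤ) ∣ n := by
  have h1 := map_dvd (Algebra.norm ℤ) h
  have h2 : (3 : 𝓞 M) = algebraMap ℤ (𝓞 M) 3 := by simp
  have h3 : (n : 𝓞 M) = algebraMap ℤ (𝓞 M) n := by simp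
  rw [h2, h3, Algebra.norm_algebraMap, Algebra.norm_algebraMap] at h1
  have h4 : Module.finrank ℤ (𝓞 M) ≠ 0 := Module.finrank_pos.ne'
  exact Int.prime_three.dvd_of_dvd_pow ((dvd_pow_self 3 h4).trans h1)

/-- the numbers `i` and `ω` -/
theorem exists_iw (hM : IsCyclotomicExtension {12} ℚ M) :
    ∃ i w : 𝓞 M, i ^ 2 = -1 ∧ w ^ 2 + w + 1 = 0 := by
  have h := IsCyclotomicExtension.zeta_spec 12 ℚ M
  have h1 := h.toInteger_isPrimitiveRoot
  set z := h.toInteger with hz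
  have h12 : z ^ 12 = 1 := h1.pow_eq_one
  have h6 : z ^ 6 ≠ 1 := h1.pow_ne_one_of_pos_of_lt (by norm_num) (by norm_num)
  have h4 : z ^ 4 ≠ 1 := h1.pow_ne_one_of_pos_of_lt (by norm_num) (by norm_num)
  refine ⟨z ^ 3, z ^ 4, ?_, ?_⟩
  · have : (z ^ 6 - 1) * (z ^ 6 + 1) = 0 := by
      linear_combination h12
    rcases mul_eq_zero.1 this with h | h
    · exact absurd (sub_eq_zero.1 h) h6
    · linear_combination h
  · have : (z ^ 4 - 1) * ((z ^ 4) ^ 2 + z ^ 4 + 1) = 0 := by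
      linear_combination h12
    rcases mul_eq_zero.1 this with h | h
    · exact absurd (sub_eq_zero.1 h) h4
    · exact h

/-- the prime above three -/
theorem above_three (hM : IsCyclotomicExtension {12} ℚ M) (i θ : 𝓞 M) (hi : i ^ 2 = -1)
    (hθ : θ ^ 2 = -3) (P : Ideal (𝓞 M)) (hP : P.IsMaximal) (h3 : (3 : 𝓞 M) ∈ P) :
    P = span {θ} ∧ Nat.card (𝓞 M ⧸ P) = 9 := by
  have hrk : Module.finrank ℤ (𝓞 M) = 4 := by
    rw [RingOfIntegers.rank, IsCyclotomicExtension.finrank (n := 12) M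
      (Polynomial.cyclotomic.irreducible_rat (by norm_num))]
    decide +kernel
  have hθP : θ ∈ P := by
    apply hP.isPrime.mem_of_pow_mem 2
    rw [hθ]
    exact neg_mem h3
  have hn : absNorm (span {θ}) = 9 := by
    rw [absNorm_span_singleton]
    have h1 : (Algebra.norm ℤ θ) ^ 2 = 81 := by
      rw [← map_pow, hθ]
      have : (-3 : 𝓞 M) = algebraMap ℤ (𝓞 M) (-3) := by simp
      rw [this, Algebra.norm_algebraMap, hrk]
      norm_num
    have h2 : (Algebra.norm ℤ θ).natAbs ^ 2 = 9 ^ 2 := by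
      have := congrArg Int.natAbs h1
      rw [Int.natAbs_pow] at this
      rw [this]
      norm_num
    exact Nat.pow_left_injective (by norm_num : 2 ≠ 0) h2
  have hdvd : P ∣ span {θ} := by
    rw [dvd_span_singleton]
    exact hθP
  have hc : absNorm P = Nat.card (𝓞 M ⧸ P) := by
    rw [absNorm_apply, Submodule.cardQuot_apply]
  obtain ⟨Q, hQ⟩ := hdvd
  have hPQ : absNorm P * absNorm Q = 9 := by rw [← map_mul, ← hQ, hn]
  have hP9 : absNorm P ∣ 3 ^ 2 := ⟨absNorm Q, by rw [hPQ]; norm_num⟩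
  obtain ⟨k, hk2, hk⟩ := (Nat.dvd_prime_pow Nat.prime_three).1 hP9
  have hk0 : k ≠ 0 := by
    rintro rfl
    rw [pow_zero, absNorm_eq_one_iff] at hk
    exact hP.ne_top hk
  have hk1 : k ≠ 1 := by
    rintro rfl
    let _ := Ideal.Quotient.field P
    have : Finite (𝓞 M ⧸ P) := Nat.finite_of_card_ne_zero (by rw [← hc, hk]; norm_num)
    let _ := Fintype.ofFinite (𝓞 M ⧸ P)
    have hcard : Fintype.card (𝓞 M ⧸ P) = 3 := by
      rw [← Nat.card_eq_fintype_card, ← hc, hk]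
      norm_num
    have h4 := FiniteField.pow_card (Ideal.Quotient.mk P i)
    rw [hcard, ← map_pow] at h4
    have h5 := Ideal.Quotient.eq.1 h4
    have h6 : i ^ 3 - i = -(2 * i) := by linear_combination i * hi
    rw [h6] at h5
    have h7 : (2 : 𝓞 M) ∈ P := by
      have h8 := P.mul_mem_left i h5
      have h9 : i * -(2 * i) = 2 := by linear_combination (-2) * hi
      rwa [h9] at h8
    apply hP.ne_top
    rw [eq_top_iff_one]
    have h8 : (1 : 𝓞 M) = 3 - 2 := by norm_num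
    rw [h8]
    exact P.sub_mem h3 h7
  have hk' : k = 2 := by omega
  have hP' : absNorm P = 9 := by rw [hk, hk']; norm_num
  refine ⟨?_, by rw [← hc, hP']⟩
  have hQ1 : absNorm Q = 1 := by
    rw [hP'] at hPQ
    omega
  rw [absNorm_eq_one_iff] at hQ1
  rw [hQ, hQ1, mul_top]

/-- the eighth powers -/
lemma eight (P : Ideal (𝓞 M)) (hP : P.IsMaximal) (hc : Nat.card (𝓞 M ⧸ P) = 9) (c : (𝓞 M)ˣ) :
    (c : 𝓞 M) ^ 8 - 1 ∈ P := by
  let _ := Ideal.Quotient.field P
  have : Finite (𝓞 M ⧸ P) := Nat.finite_of_card_ne_zero (by rw [hc]; norm_num)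
  let _ := Fintype.ofFinite (𝓞 M ⧸ P)
  have hcard : Fintype.card (𝓞 M ⧸ P) = 9 := by
    rw [← Nat.card_eq_fintype_card, hc]
  have h0 : Ideal.Quotient.mk P (c : 𝓞 M) ≠ 0 := by
    rw [Ne, Ideal.Quotient.eq_zero_iff_mem]
    intro h
    exact hP.ne_top (P.eq_top_of_isUnit_mem h c.isUnit)
  have h1 := FiniteField.pow_card_sub_one_eq_one _ h0
  rw [hcard, ← map_pow, ← map_one (Ideal.Quotient.mk P)] at h1
  exact Ideal.Quotient.eq.1 h1

/-- cubes of units satisfy the local condition -/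
lemma cube_cond {R : Type} [CommRing R] (θ c : R) (hθ : θ ^ 2 = -3) (h : θ ∣ c ^ 8 - 1) :
    (3 : R) ∣ (c ^ 3) ^ 8 - 1 := by
  obtain ⟨t, ht⟩ := h
  refine ⟨θ * t + θ ^ 2 * t ^ 2 - θ * t ^ 3, ?_⟩
  have h1 : (c ^ 3) ^ 8 = (1 + θ * t) ^ 3 := by
    rw [← ht]
    ring
  rw [h1]
  linear_combination (θ * t ^ 3) * hθ

end Pool.Agent.W2helper95.TQ
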