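import Pool.Agent.W2helper24.TQ.Stm
import Pool.Agent.W2helper95.TQ.A4a
import Pool.Agent.W2helper95.TQ.A4b
import Pool.Agent.W2helper95.TQ.A4d

/-!
# Project TQ, piece A4: the field of the `12`-th roots of unity (helper95)
-/

set_option autoImplicit false

namespace Pool.Agent.W2helper95.TQ

open NumberField IsDedekindDomain Ideal WithZero Pool.Agent.W2helper24.TQ

theorem piece : P_A4 := by
  intro M _ _ hM m hm
  have := pid12 M
  obtain ⟨i, w, hi, hw⟩ := exists_iw hM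
  obtain ⟨u, b, hb0, hub⟩ := cube_frac m hm.ne hm.div
  obtain ⟨θ, hθe⟩ : ∃ θ, θ = 2 * w + 1 := ⟨_, rfl⟩
  have hθ : θ ^ 2 = -3 := by rw [hθe]; exact theta_sq hw
  have h30 : (3 : 𝓞 M) ≠ 0 := by norm_num
  have hθ0 : θ ≠ 0 := by
    rintro rfl
    apply h30
    linear_combination hθ
  have h3u : ¬ IsUnit (3 : 𝓞 M) := by
    intro h
    have h1 : (3 : 𝓞 M) ∣ ((1 : ℤ) : 𝓞 M) := by
      rw [Int.cast_one]
      exact h.dvd
    have h2 := three_dvd (M := M) 1 h1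
    omega
  obtain ⟨P, hP, h3P⟩ := exists_max_ideal_of_mem_nonunits h3u
  have hPb : P ≠ ⊥ := by
    rintro rfl
    exact h30 (Ideal.mem_bot.1 h3P)
  obtain ⟨hPθ, hcard⟩ := above_three hM i θ hi hθ P hP h3P
  let v : HeightOneSpectrum (𝓞 M) := ⟨P, hP.isPrime, hPb⟩
  have hmu : m * b⁻¹ ^ 3 = algebraMap (𝓞 M) M (u : 𝓞 M) := by
    rw [hub]
    field_simp
  have hvu : v.valuation M (m * b⁻¹ ^ 3) = 1 := by
    rw [hmu, HeightOneSpectrum.valuation_of_algebraMap, HeightOneSpectrum.intValuation_eq_one_iff]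
    intro h
    exact hP.ne_top (P.eq_top_of_isUnit_mem h u.isUnit)
  have hloc := hm.loc v h3P b⁻¹ hvu
  have hcard' : Nat.card (𝓞 M ⧸ v.asIdeal) = 9 := hcard
  rw [hmu, hcard'] at hloc
  -- the local condition
  have hv3 : v.valuation M 3 = exp (-((2 : ℕ) : ℤ)) := by
    have h1 : v.intValuation θ = exp (-1 : ℤ) :=
      v.intValuation_singleton hθ0 hPθ
    have h2 : (3 : M) = algebraMap (𝓞 M) M (-(θ ^ 2)) := by
      rw [hθ, neg_neg, map_ofNat]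
    rw [h2, HeightOneSpectrum.valuation_of_algebraMap, Valuation.map_neg, map_pow, h1, ← exp_nsmul]
    congr 1
  have hcond : (3 : 𝓞 M) ∣ (u : 𝓞 M) ^ 8 - 1 := by
    have h1 : algebraMap (𝓞 M) M (u : 𝓞 M) ^ (9 - 1) - 1 =
        algebraMap (𝓞 M) M ((u : 𝓞 M) ^ 8 - 1) := by
      simp
    rw [h1, HeightOneSpectrum.valuation_of_algebraMap, hv3,
      HeightOneSpectrum.intValuation_le_pow_iff_mem] at hloc
    have h2 : v.asIdeal ^ 2 = span {(3 : 𝓞 M)} := by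
      show P ^ 2 = _
      rw [hPθ, span_singleton_pow, hθ, span_singleton_neg]
    rw [h2] at hloc
    exact mem_span_singleton.1 hloc
  -- the units
  have hcube : ∀ c : (𝓞 M)ˣ, (3 : 𝓞 M) ∣ ((c : 𝓞 M) ^ 3) ^ 8 - 1 := by
    intro c
    refine cube_cond θ (c : 𝓞 M) hθ ?_
    have h1 := eight P hP hcard c
    rw [hPθ] at h1
    exact mem_span_singleton.1 h1
  have hε : (2 - i * θ) * (2 + i * θ) = 1 := by
    linear_combination (-θ ^ 2) * hi + hθ
  have hwu : w * w ^ 2 = 1 := by linear_combination (w - 1) * hw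
  let x : (𝓞 M)ˣ := ⟨w, w ^ 2, hwu, by rw [mul_comm]; exact hwu⟩
  let y : (𝓞 M)ˣ := ⟨2 - i * θ, 2 + i * θ, hε, by rw [mul_comm]; exact hε⟩
  have hclass : ∀ a b : ℕ, (3 : 𝓞 M) ∣ (w ^ a * (2 - i * θ) ^ b) ^ 8 - 1 → 3 ∣ a ∧ 3 ∣ b := by
    intro a b h
    rw [hθe] at h
    exact class_eq h30 (fun n hn => three_dvd n hn) hi hw a b h
  obtain ⟨τ, η, hg⟩ := gens hM
  obtain ⟨a, b', c, hc⟩ := classes τ η x y hg (by
    rintro a b ⟨c, hc⟩
    apply hclass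
    have h1 := congrArg (Units.val) hc
    rw [Units.val_mul, Units.val_pow_eq_pow_val, Units.val_pow_eq_pow_val,
      Units.val_pow_eq_pow_val] at h1
    have h2 : w ^ a * (2 - i * θ) ^ b = (c : 𝓞 M) ^ 3 := h1
    rw [h2]
    exact hcube c) u
  have h1 : (u : 𝓞 M) = w ^ a * (2 - i * θ) ^ b' * (c : 𝓞 M) ^ 3 := by
    have h := congrArg (Units.val) hc
    rw [Units.val_mul, Units.val_mul, Units.val_pow_eq_pow_val, Units.val_pow_eq_pow_val,
      Units.val_pow_eq_pow_val] at h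
    exact h
  have h2 : (3 : 𝓞 M) ∣ (w ^ a * (2 - i * θ) ^ b') ^ 8 - 1 := by
    obtain ⟨p, hp⟩ := hcond
    obtain ⟨q, hq⟩ := hcube c
    refine ⟨p - (w ^ a * (2 - i * θ) ^ b') ^ 8 * q, ?_⟩
    rw [h1, mul_pow] at hp
    linear_combination hp - (w ^ a * (2 - i * θ) ^ b') ^ 8 * hq
  obtain ⟨⟨a', ha'⟩, ⟨b'', hb''⟩⟩ := hclass a b' h2
  refine ⟨algebraMap (𝓞 M) M (w ^ a' * (2 - i * θ) ^ b'' * (c : 𝓞 M)) * b, ?_⟩
  rw [hub, mul_pow, ← map_pow, h1, ha', hb'']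
  congr 2
  ring

end Pool.Agent.W2helper95.TQ
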