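import Mathlib
import Pool.Agent.Y350.CT.REC
import Pool.Agent.N758.HCB.Bas

/-!
# Project TQ, piece E3 (helper95): the cubic residue symbols at the primes above `p`
-/

set_option autoImplicit false
set_option linter.unusedSectionVars false

namespace Pool.Agent.W2helper95.TQ.E3

open Pool.Agent.Y692.QS
open Pool.Agent.Y715.T.Rec (cs nn w_pow_ex la la_sq w_inj w_add)
open Pool.Agent.Y715.T.RecG (Pq cs_spec cs_of cs_congr cs_mul cs_one cs_neg cs_pow cs_uniq)
open Pool.Agent.Y715.T.RecC (unit_form star_prime star_dvd)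
open Pool.Agent.Y350.CT (pq_star cs_star)
open Pool.Agent.N758.HCB (nr_dvd prim above cs_w1)
open Pool.Agent.N17.HC (lam9)
open scoped Classical

/-- a primary prime above `p` -/
noncomputable def pp (p : ℕ) : Ei := if h : ∃ ρ : Ei, Pq ρ ∧ nr ρ = p then h.choose else 1

/-- split primes -/
structure P1 (p : ℕ) : Prop where
  prime : p.Prime
  mod : p % 3 = 1

lemma pp_spec {p : ℕ} (h : P1 p) : Pq (pp p) ∧ nr (pp p) = p := by
  have h1 : ∃ ρ : Ei, Pq ρ ∧ nr ρ = p := by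
    obtain ⟨ρ, h2, -, h3 | h3⟩ := above h.prime (by rintro rfl; exact absurd h.mod (by norm_num))
    · exact ⟨ρ, h2, h3.2⟩
    · have := h.mod
      omega
  unfold pp
  rw [dif_pos h1]
  exact h1.choose_spec

lemma pp_mul {p : ℕ} (h : P1 p) : pp p * star (pp p) = (p : Ei) := by
  rw [mul_star, (pp_spec h).2]
  push_cast
  rfl

/-- prime to both primes above `p` -/
def Cp (p : ℕ) (α : Ei) : Prop := ¬ pp p ∣ α ∧ ¬ star (pp p) ∣ α

lemma Cp.of_nr {p : ℕ} (h : P1 p) {α : Ei} (ha : ¬ (p : ℤ) ∣ nr α) : Cp p α := by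
  constructor
  · intro h1
    have h2 := nr_dvd h1
    rw [(pp_spec h).2] at h2
    exact ha h2
  · intro h1
    have h2 := nr_dvd h1
    rw [nr_star, (pp_spec h).2] at h2
    exact ha h2

lemma Cp.nat {p : ℕ} (h : P1 p) {n : ℕ} (hn : ¬ p ∣ n) : Cp p (n : Ei) := by
  apply Cp.of_nr h
  rw [nr_nat]
  intro h1
  have h2 : p ∣ n ^ 2 := by exact_mod_cast h1
  exact hn (h.prime.dvd_of_dvd_pow h2)

lemma Cp.mul {p : ℕ} (h : P1 p) {α β : Ei} (ha : Cp p α) (hb : Cp p β) : Cp p (α * β) := by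
  have h1 := (pp_spec h).1
  have h2 := pq_star h1
  constructor
  · intro h3
    rcases h1.prime.dvd_or_dvd h3 with h4 | h4
    · exact ha.1 h4
    · exact hb.1 h4
  · intro h3
    rcases h2.prime.dvd_or_dvd h3 with h4 | h4
    · exact ha.2 h4
    · exact hb.2 h4

lemma Cp.unit {p : ℕ} (h : P1 p) {α : Ei} (ha : IsUnit α) : Cp p α := by
  apply Cp.of_nr h
  rw [isUnit_iff.1 ha]
  intro h1
  have h2 := Int.le_of_dvd one_pos h1
  have := h.prime.one_lt
  omega

/-- the sum of the symbols at the primes above `p` -/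
noncomputable def sy (p : ℕ) (α : Ei) : ZMod 3 := cs (pp p) α + cs (star (pp p)) α

lemma sy_mul {p : ℕ} (h : P1 p) {α β : Ei} (ha : Cp p α) (hb : Cp p β) :
    sy p (α * β) = sy p α + sy p β := by
  have h1 := (pp_spec h).1
  have h2 := pq_star h1
  unfold sy
  rw [cs_mul h1.prime h1.norm ha.1 hb.1, cs_mul h2.prime h2.norm ha.2 hb.2]
  ring

lemma sy_one {p : ℕ} (h : P1 p) : sy p 1 = 0 := by
  have h1 := (pp_spec h).1
  have h2 := pq_star h1
  unfold sy
  rw [cs_one h1.prime h1.norm, cs_one h2.prime h2.norm, add_zero]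

lemma sy_congr {p : ℕ} (h : P1 p) {α β : Ei} (ha : Cp p α) (hd : (p : Ei) ∣ α - β) :
    sy p α = sy p β := by
  have h1 := (pp_spec h).1
  have h2 := pq_star h1
  unfold sy
  rw [cs_congr h1.prime h1.norm ha.1 ((Dvd.intro _ (pp_mul h)).trans hd),
    cs_congr h2.prime h2.norm ha.2 ((Dvd.intro_left _ (pp_mul h)).trans hd)]

lemma sy_int {p : ℕ} (h : P1 p) {n : ℤ} (hn : Cp p (n : Ei)) : sy p (n : Ei) = 0 := by
  have h1 := (pp_spec h).1
  unfold sy
  have h3 := cs_star h1 hn.1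
  have h4 : star ((n : ℤ) : Ei) = (n : Ei) := by
    ext
    · rw [star_re]; simp
    · rw [star_im]; simp
  rw [h4] at h3
  rw [h3]
  ring

lemma sy_neg_one {p : ℕ} (h : P1 p) : sy p (-1) = 0 := by
  have := sy_int h (n := -1) (by
    push_cast
    exact Cp.unit h isUnit_one.neg)
  push_cast at this
  exact this

lemma w_unit : IsUnit (w : Ei) := isUnit_iff.2 (by decide)

lemma sy_w {p : ℕ} (h : P1 p) : sy p w = 2 * lam9 p := by
  have h1 := (pp_spec h).1
  have h2 := pq_star h1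
  unfold sy
  rw [cs_w1 h1 (pp_spec h).2 h.mod, cs_w1 h2 (by rw [nr_star]; exact (pp_spec h).2) h.mod]
  ring

/-- the symbol with denominator `D` -/
noncomputable def XD (D : ℕ) (α : Ei) : ZMod 3 :=
  D.factorization.sum fun p k => (k : ZMod 3) * sy p α

lemma XD_one (α : Ei) : XD 1 α = 0 := by
  unfold XD
  rw [Nat.factorization_one, Finsupp.sum_zero_index]

lemma XD_mul {a b : ℕ} (ha : a ≠ 0) (hb : b ≠ 0) (α : Ei) : XD (a * b) α = XD a α + XD b α := by
  unfold XD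
  rw [Nat.factorization_mul ha hb, Finsupp.sum_add_index']
  · intro p
    simp
  · intro p k l
    push_cast
    ring

lemma XD_prime {p : ℕ} (hp : p.Prime) (α : Ei) : XD p α = sy p α := by
  unfold XD
  rw [hp.factorization, Finsupp.sum_single_index]
  · simp
  · simp

/-- all the prime factors are split -/
def Sp (D : ℕ) : Prop := D ≠ 0 ∧ ∀ p : ℕ, p.Prime → p ∣ D → p % 3 = 1

lemma Sp.left {a b : ℕ} (h : Sp (a * b)) : Sp a :=
  ⟨fun h1 => h.1 (by rw [h1, zero_mul]), fun p hp hd => h.2 p hp (hd.mul_right b)⟩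

lemma Sp.right {a b : ℕ} (h : Sp (a * b)) : Sp b :=
  ⟨fun h1 => h.1 (by rw [h1, mul_zero]), fun p hp hd => h.2 p hp (hd.mul_left a)⟩

lemma Sp.p1 {D p : ℕ} (h : Sp D) (hp : p ∈ D.primeFactors) : P1 p :=
  ⟨Nat.prime_of_mem_primeFactors hp, h.2 p (Nat.prime_of_mem_primeFactors hp)
    (Nat.dvd_of_mem_primeFactors hp)⟩

lemma XD_add {D : ℕ} (h : Sp D) {α β : Ei} (ha : ∀ p ∈ D.primeFactors, Cp p α)
    (hb : ∀ p ∈ D.primeFactors, Cp p β) : XD D (α * β) = XD D α + XD D β := by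
  unfold XD
  rw [Finsupp.sum, Finsupp.sum, Finsupp.sum, ← Finset.sum_add_distrib]
  refine Finset.sum_congr rfl fun p hp => ?_
  rw [Nat.support_factorization] at hp
  rw [sy_mul (h.p1 hp) (ha p hp) (hb p hp)]
  ring

/-- reciprocity for primary primes -/
lemma rec_pq (D : ℕ) : Sp D → ∀ {π : Ei}, Pq π → ¬ π ∣ (D : Ei) →
    cs π (D : Ei) = XD D π := by
  induction D using Nat.recOnMul with
  | zero => exact fun h => absurd rfl h.1
  | one =>
    intro _ π hq _
    rw [Nat.cast_one, cs_one hq.prime hq.norm, XD_one]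
  | prime p hp =>
    intro h π hq hn
    have hP : P1 p := ⟨hp, h.2 p hp dvd_rfl⟩
    have h1 := (pp_spec hP).1
    have h2 := pq_star h1
    have h3 : ¬ π ∣ pp p := fun h4 => hn (h4.trans (Dvd.intro _ (pp_mul hP)))
    have h5 : ¬ π ∣ star (pp p) := fun h4 => hn (h4.trans (Dvd.intro_left _ (pp_mul hP)))
    rw [XD_prime hp, ← pp_mul hP, cs_mul hq.prime hq.norm h3 h5, sy,
      Pool.Agent.Y350.CT.rec (pp p) π h1 hq h3,
      Pool.Agent.Y350.CT.rec (star (pp p)) π h2 hq h5]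
  | mul a b iha ihb =>
    intro h π hq hn
    have ha : ¬ π ∣ (a : Ei) := fun h4 => hn (by rw [Nat.cast_mul]; exact h4.mul_right _)
    have hb : ¬ π ∣ (b : Ei) := fun h4 => hn (by rw [Nat.cast_mul]; exact h4.mul_left _)
    rw [Nat.cast_mul, cs_mul hq.prime hq.norm ha hb, iha h.left hq ha, ihb h.right hq hb,
      XD_mul h.left.1 h.right.1]

lemma lam9_eq {p : ℕ} (h : p % 3 = 1) : lam9 p = ((p / 3 : ℕ) : ZMod 3) := by
  have h1 : ((p / 3 : ℕ) : ZMod 3) = (((p / 3) % 3 : ℕ) : ZMod 3) := by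
    rw [ZMod.natCast_mod]
  rw [h1]
  unfold lam9
  rcases (by omega : p % 9 = 1 ∨ p % 9 = 4 ∨ p % 9 = 7) with h4 | h4 | h4
  · rw [if_neg (by omega), if_neg (by omega), (by omega : p / 3 % 3 = 0)]
    rfl
  · rw [if_neg (by omega), if_pos (by omega), (by omega : p / 3 % 3 = 1)]
    rfl
  · rw [if_pos (by omega), (by omega : p / 3 % 3 = 2)]
    rfl

lemma Sp.mod (D : ℕ) : Sp D → D % 3 = 1 := by
  induction D using Nat.recOnMul with
  | zero => exact fun h => absurd rfl h.1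
  | one => exact fun _ => rfl
  | prime p hp => exact fun h => h.2 p hp dvd_rfl
  | mul a b iha ihb =>
    intro h
    rw [Nat.mul_mod, iha h.left, ihb h.right]

/-- the symbol of the cube root of unity -/
lemma XD_w (D : ℕ) : Sp D → XD D w = 2 * ((D / 3 : ℕ) : ZMod 3) := by
  induction D using Nat.recOnMul with
  | zero => exact fun h => absurd rfl h.1
  | one =>
    intro _
    rw [XD_one]
    decide
  | prime p hp =>
    intro h
    have hP : P1 p := ⟨hp, h.2 p hp dvd_rfl⟩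
    rw [XD_prime hp, sy_w hP, lam9_eq hP.mod]
  | mul a b iha ihb =>
    intro h
    rw [XD_mul h.left.1 h.right.1, iha h.left, ihb h.right]
    have h1 := Sp.mod _ h.left
    have h2 := Sp.mod _ h.right
    obtain ⟨s, hs⟩ : ∃ s, a = 3 * s + 1 := ⟨a / 3, by omega⟩
    obtain ⟨t, ht⟩ : ∃ t, b = 3 * t + 1 := ⟨b / 3, by omega⟩
    have h3 : a * b = 3 * (3 * (s * t) + s + t) + 1 := by rw [hs, ht]; ring
    rw [h3, hs, ht, (by omega : (3 * s + 1) / 3 = s), (by omega : (3 * t + 1) / 3 = t),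
      (by omega : (3 * (3 * (s * t) + s + t) + 1) / 3 = 3 * (s * t) + s + t)]
    push_cast
    have h4 : (3 : ZMod 3) = 0 := rfl
    rw [h4]
    ring

lemma XD_one' {D : ℕ} (h : Sp D) : XD D 1 = 0 := by
  unfold XD
  rw [Finsupp.sum]
  refine Finset.sum_eq_zero fun p hp => ?_
  rw [Nat.support_factorization] at hp
  rw [sy_one (h.p1 hp), mul_zero]

lemma XD_neg_one {D : ℕ} (h : Sp D) : XD D (-1) = 0 := by
  unfold XD
  rw [Finsupp.sum]
  refine Finset.sum_eq_zero fun p hp => ?_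
  rw [Nat.support_factorization] at hp
  rw [sy_neg_one (h.p1 hp), mul_zero]

/-- the numbers with trivial symbols at the units -/
structure G9 (D : ℕ) : Prop where
  sp : Sp D
  mod : D % 9 = 1

lemma XD_unit {D : ℕ} (h : G9 D) {u : Ei} (hu : IsUnit u) : XD D u = 0 := by
  have hw : XD D w = 0 := by
    rw [XD_w D h.sp]
    have h1 := h.mod
    have h2 : D / 3 = 3 * (D / 9) := by omega
    rw [h2]
    push_cast
    have h4 : (3 : ZMod 3) = 0 := rfl
    rw [h4]
    ring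
  have hpow : ∀ n : ℕ, XD D (w ^ n) = 0 := by
    intro n
    induction n with
    | zero => rw [pow_zero, XD_one' h.sp]
    | succ n ih =>
      rw [pow_succ, XD_add h.sp (fun p hp => Cp.unit (h.sp.p1 hp) (w_unit.pow n))
        (fun p hp => Cp.unit (h.sp.p1 hp) w_unit), ih, hw, add_zero]
  obtain ⟨c, rfl | rfl⟩ := unit_form hu
  · exact hpow _
  · have e : -w ^ c.val = (-1) * w ^ c.val := by ring
    rw [e, XD_add h.sp (fun p hp => Cp.unit (h.sp.p1 hp) isUnit_one.neg)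
      (fun p hp => Cp.unit (h.sp.p1 hp) (w_unit.pow _)), XD_neg_one h.sp, hpow, add_zero]

/-- a prime that does not divide `D` is prime to the prime factors of `D` -/
lemma cp_of_ndvd {D : ℕ} (h : Sp D) {π : Ei} (hπ : Prime π) (hn : ¬ π ∣ (D : Ei)) :
    ∀ p ∈ D.primeFactors, Cp p π := by
  intro p hp
  have h1 := (pp_spec (h.p1 hp)).1
  have h2 := pq_star h1
  have hd : (p : Ei) ∣ (D : Ei) := Nat.cast_dvd_cast (Nat.dvd_of_mem_primeFactors hp)
  constructor
  · intro h3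
    have h4 := (h1.prime.dvd_prime_iff_associated hπ).1 h3
    exact hn (h4.symm.dvd.trans ((Dvd.intro _ (pp_mul (h.p1 hp))).trans hd))
  · intro h3
    have h4 := (h2.prime.dvd_prime_iff_associated hπ).1 h3
    exact hn (h4.symm.dvd.trans ((Dvd.intro_left _ (pp_mul (h.p1 hp))).trans hd))

/-- reciprocity for all primes prime to `3` -/
theorem rec_all {D : ℕ} (h : G9 D) {π : Ei} (hπ : Prime π) (h3 : ¬ π ∣ 3)
    (hn : ¬ π ∣ (D : Ei)) : cs π (D : Ei) = XD D π := by
  obtain ⟨u, hu, hq⟩ := prim hπ h3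
  have hd : ∀ x : Ei, u * π ∣ x ↔ π ∣ x := by
    intro x
    obtain ⟨v, rfl⟩ := hu
    rw [mul_comm]
    exact Units.mul_right_dvd
  have h1 : ¬ u * π ∣ (D : Ei) := fun h2 => hn ((hd _).1 h2)
  have h4 := rec_pq D h.sp hq h1
  rw [XD_add h.sp (fun p hp => Cp.unit (h.sp.p1 hp) hu) (cp_of_ndvd h.sp hπ hn),
    XD_unit h hu, zero_add] at h4
  rw [← h4]
  apply cs_of hπ h3
  have h5 := cs_spec hq.prime hq.norm h1
  have h6 : nn (u * π) = nn π := by
    unfold nn
    rw [nr_mul, isUnit_iff.1 hu, one_mul]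
  rw [h6] at h5
  exact (hd _).1 h5

/-- the primes above three -/
theorem XD_three {D : ℕ} (h : G9 D) {π : Ei} (hπ : Prime π) (h3 : π ∣ 3) : XD D π = 0 := by
  have hcp : ∀ p ∈ D.primeFactors, Cp p la := by
    intro p hp
    apply Cp.of_nr (h.sp.p1 hp)
    have h1 : nr la = 3 := by decide
    rw [h1]
    intro h2
    have h4 : p ∣ 3 := by exact_mod_cast h2
    have h5 := (Nat.prime_dvd_prime_iff_eq (h.sp.p1 hp).prime Nat.prime_three).1 h4
    have h6 := (h.sp.p1 hp).mod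
    rw [h5] at h6
    norm_num at h6
  have hla : XD D la = 0 := by
    have h1 : XD D (la * la) = 0 := by
      unfold XD
      rw [Finsupp.sum]
      refine Finset.sum_eq_zero fun p hp => ?_
      rw [Nat.support_factorization] at hp
      have h2 : (la * la : Ei) = (((-3 : ℤ)) : Ei) := by
        rw [la_sq]
        push_cast
        rfl
      have h5 := (hcp p hp).mul (h.sp.p1 hp) (hcp p hp)
      rw [h2] at h5 ⊢
      rw [sy_int (h.sp.p1 hp) h5, mul_zero]
    rw [XD_add h.sp hcp hcp] at h1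
    revert h1
    generalize XD D la = c
    revert c
    decide
  have h4 : π ∣ la := by
    have h5 : π ∣ la * la := by
      rw [la_sq]
      exact (dvd_neg).2 h3
    rcases hπ.dvd_or_dvd h5 with h6 | h6 <;> exact h6
  obtain ⟨u, hu⟩ := h4
  have h6 : nr π * nr u = 3 := by
    rw [← nr_mul, ← hu]
    decide
  have hp3 : Prime (3 : ℤ) := Int.prime_three
  have h7 : nr π ≠ 1 := fun h => hπ.not_isUnit (isUnit_iff.2 h)
  have h8 := nr_nonneg π
  have h9 := nr_nonneg u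
  have h10 : nr u = 1 := by
    have h11 : nr π ∣ 3 := ⟨_, h6.symm⟩
    have h12 : nr π ≤ 3 := Int.le_of_dvd (by norm_num) h11
    interval_cases h13 : nr π <;> omega
  have hu' : IsUnit u := isUnit_iff.2 h10
  have hcpπ : ∀ p ∈ D.primeFactors, Cp p π := by
    intro p hp
    refine ⟨fun h1 => (hcp p hp).1 (by rw [hu]; exact h1.mul_right u),
      fun h1 => (hcp p hp).2 (by rw [hu]; exact h1.mul_right u)⟩
  rw [hu, XD_add h.sp hcpπ (fun p hp => Cp.unit (h.sp.p1 hp) hu'), XD_unit h hu', add_zero] at hla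
  exact hla

/-! ### Elements with given symbols -/

/-- a cubic nonresidue -/
lemma exists_nonres {π : Ei} (h : Pq π) : ∃ b : Ei, ¬ π ∣ b ∧ cs π b ≠ 0 := by
  classical
  let _ := Pool.Agent.Y715.T.Rec.fld h.prime
  let _ := Pool.Agent.Y715.T.Rec.ftp h.prime
  have h3 := Pool.Agent.Y715.T.RecG.mk_three h.norm
  have hne := Pool.Agent.Y715.T.Cub.chi_ne_one (Pool.Agent.Y715.T.Rec.mw π) h3
  by_contra hcon
  push Not at hcon
  apply hne
  refine MulChar.ext fun u => ?_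
  obtain ⟨x, hx⟩ := Ideal.Quotient.mk_surjective (u : Pool.Agent.Y715.T.Rec.FF π)
  have hx0 : ¬ π ∣ x := by
    intro hd
    have : Pool.Agent.Y715.T.Rec.mk π x = 0 := (Pool.Agent.Y715.T.Rec.mk_eq_zero x).2 hd
    rw [hx] at this
    exact u.ne_zero this
  have h4 := Pool.Agent.Y715.T.RecG.cs_chi h.prime h.norm hx0
  rw [← hx]
  rw [hcon x hx0] at h4
  rw [MulChar.one_apply (by rw [hx]; exact u.isUnit)]
  rw [ZMod.val_zero, pow_zero] at h4
  exact h4

/-- the symbol takes all the values -/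
lemma exists_cs {π : Ei} (hq : Pq π) (z : ZMod 3) : ∃ β : Ei, ¬ π ∣ β ∧ cs π β = z := by
  obtain ⟨b, hb, h0⟩ := exists_nonres hq
  refine ⟨b ^ (z * cs π b).val, fun h => hb (hq.prime.dvd_of_dvd_pow h), ?_⟩
  rw [cs_pow hq.prime hq.norm hb, ZMod.natCast_zmod_val]
  revert h0
  generalize cs π b = c
  revert c z
  decide

/-- the elements with given residue classes -/
lemma loc1 {π m : Ei} (hq : Pq π) (hc : IsCoprime π m) (z : ZMod 3) :
    ∃ α : Ei, m ∣ α - 1 ∧ ¬ π ∣ α ∧ cs π α = z := by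
  obtain ⟨β, hβ, hz⟩ := exists_cs hq z
  obtain ⟨a, b, hab⟩ := hc
  have h1 : π ∣ β - (1 + (β - 1) * (b * m)) := ⟨(β - 1) * a, by linear_combination -(β - 1) * hab⟩
  refine ⟨1 + (β - 1) * (b * m), ⟨(β - 1) * b, by ring⟩, ?_, ?_⟩
  · intro h2
    apply hβ
    have h3 := dvd_add h1 h2
    rwa [sub_add_cancel] at h3
  · rw [← cs_congr hq.prime hq.norm hβ h1, hz]

/-- one of the two primes above `p` -/
def Ab (p : ℕ) (π : Ei) : Prop := π = pp p ∨ π = star (pp p)

lemma Ab.pq {p : ℕ} (h : P1 p) {π : Ei} (ha : Ab p π) : Pq π := by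
  rcases ha with rfl | rfl
  · exact (pp_spec h).1
  · exact pq_star (pp_spec h).1

lemma Ab.nr {p : ℕ} (h : P1 p) {π : Ei} (ha : Ab p π) : nr π = p := by
  rcases ha with rfl | rfl
  · exact (pp_spec h).2
  · rw [nr_star]
    exact (pp_spec h).2

lemma Ab.star {p : ℕ} {π : Ei} (ha : Ab p π) : Ab p (star π) := by
  rcases ha with rfl | rfl
  · exact Or.inr rfl
  · exact Or.inl (star_star _)

lemma Ab.mul {p : ℕ} (h : P1 p) {π : Ei} (ha : Ab p π) : π * Star.star π = (p : Ei) := by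
  rw [mul_star, ha.nr h]
  push_cast
  rfl

lemma Ab.nd {p : ℕ} (h : P1 p) {π : Ei} (ha : Ab p π) {n : ℕ} (hn : ¬ p ∣ n) :
    ¬ π ∣ (n : Ei) := by
  intro h1
  have h2 := nr_dvd h1
  rw [ha.nr h, nr_nat] at h2
  have h3 : p ∣ n ^ 2 := by exact_mod_cast h2
  exact hn (h.prime.dvd_of_dvd_pow h3)

lemma Ab.not_star {p : ℕ} (h : P1 p) {π : Ei} (ha : Ab p π) : ¬ π ∣ Star.star π := by
  intro h1
  have h2 := Pool.Agent.Y350.CT.eq_of_dvd (pq_star (ha.pq h)) (ha.pq h) h1
  have h3 : π.im = 0 := by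
    have := congrArg QuadraticAlgebra.im h2
    rw [star_im] at this
    omega
  have h4 := ha.nr h
  unfold Pool.Agent.Y692.QS.nr at h4
  rw [h3] at h4
  have h5 : (p : ℤ) = π.re ^ 2 := by rw [← h4]; ring
  have h6 : p = π.re.natAbs ^ 2 := by
    have h7 : (p : ℤ) = ((π.re.natAbs ^ 2 : ℕ) : ℤ) := by
      rw [h5]
      push_cast
      rw [sq_abs]
    exact_mod_cast h7
  exact (Nat.Prime.not_prime_pow (n := 2) le_rfl) (h6 ▸ h.prime)

lemma sy_ab {p : ℕ} {π : Ei} (ha : Ab p π) (α : Ei) : sy p α = cs π α + cs (Star.star π) α := by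
  unfold sy
  rcases ha with rfl | rfl
  · rfl
  · rw [star_star, add_comm]

section fin

variable {P : Finset ℕ} (hP : ∀ p ∈ P, P1 p) {p : ℕ} (hp : p ∈ P) {π : Ei} (ha : Ab p π)

include hP hp ha

lemma coprime_q {q : ℕ} (hq : q ∈ P) (hne : q ≠ p) : IsCoprime π (q : Ei) := by
  rw [(ha.pq (hP p hp)).prime.irreducible.coprime_iff_not_dvd]
  exact ha.nd (hP p hp) fun h => hne
    ((Nat.prime_dvd_prime_iff_eq (hP p hp).prime (hP q hq).prime).1 h).symm

lemma m_dvd {m : Ei} (hm : ((∏ q ∈ P, q : ℕ) : Ei) = π * m) :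
    Star.star π ∣ m ∧ (∀ q ∈ P, q ≠ p → (q : Ei) ∣ m) ∧ IsCoprime π m := by
  have hpp := hP p hp
  have hπ := ha.pq hpp
  have h1 : ((∏ q ∈ P, q : ℕ) : Ei) = π * (Star.star π * ((∏ q ∈ P.erase p, q : ℕ) : Ei)) := by
    rw [← mul_assoc, ha.mul hpp, ← Nat.cast_mul, Finset.mul_prod_erase P (fun q => q) hp]
  have h2 : m = Star.star π * ((∏ q ∈ P.erase p, q : ℕ) : Ei) :=
    mul_left_cancel₀ hπ.prime.ne_zero (hm.symm.trans h1)
  refine ⟨⟨_, h2⟩, fun q hq hne => ?_, ?_⟩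
  · rw [h2]
    exact Dvd.dvd.mul_left (Nat.cast_dvd_cast (Finset.dvd_prod_of_mem _
      (Finset.mem_erase.2 ⟨hne, hq⟩))) _
  · rw [h2]
    refine IsCoprime.mul_right ?_ ?_
    · rw [hπ.prime.irreducible.coprime_iff_not_dvd]
      exact ha.not_star hpp
    · push_cast
      refine IsCoprime.prod_right fun q hq => ?_
      rw [Finset.mem_erase] at hq
      exact coprime_q hP hp ha hq.2 hq.1

/-- the symbols of an element that is `1` modulo the other primes -/
lemma sy_loc {m α : Ei} (hm : ((∏ q ∈ P, q : ℕ) : Ei) = π * m) (hd : m ∣ α - 1)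
    (hα : ¬ π ∣ α) : (∀ q ∈ P, Cp q α) ∧ ∀ q ∈ P, sy q α = if q = p then cs π α else 0 := by
  obtain ⟨h1, h2, h3⟩ := m_dvd hP hp ha hm
  have hpp := hP p hp
  have hone : ∀ {ρ : Ei}, Prime ρ → ρ ∣ α - 1 → ¬ ρ ∣ α := fun hρ h4 h5 =>
    hρ.not_isUnit (isUnit_of_dvd_one (by
      have h6 := dvd_sub h5 h4
      rwa [sub_sub_cancel] at h6))
  have hst := ha.star.pq hpp
  have hst1 : ¬ Star.star π ∣ α := hone hst.prime (h1.trans hd)
  have hcp : ∀ q ∈ P, Cp q α := by
    intro q hq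
    by_cases hqp : q = p
    · subst hqp
      rcases ha with rfl | rfl
      · exact ⟨hα, hst1⟩
      · rw [star_star] at hst1
        exact ⟨hst1, hα⟩
    · have h4 := (h2 q hq hqp).trans hd
      have h5 := (pp_spec (hP q hq)).1
      exact ⟨hone h5.prime ((Dvd.intro _ (pp_mul (hP q hq))).trans h4),
        hone (pq_star h5).prime ((Dvd.intro_left _ (pp_mul (hP q hq))).trans h4)⟩
  refine ⟨hcp, fun q hq => ?_⟩
  by_cases hqp : q = p
  · subst hqp
    rw [if_pos rfl, sy_ab ha, cs_congr hst.prime hst.norm hst1 (h1.trans hd),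
      cs_one hst.prime hst.norm, add_zero]
  · rw [if_neg hqp, sy_congr (hP q hq) (hcp q hq) ((h2 q hq hqp).trans hd), sy_one (hP q hq)]

/-- an element with given symbols at `p`, which is `1` modulo the other primes -/
theorem loc_el (z : ZMod 3) : ∃ m α : Ei, ((∏ q ∈ P, q : ℕ) : Ei) = π * m ∧ m ∣ α - 1 ∧
    IsCoprime α ((∏ q ∈ P, q : ℕ) : Ei) ∧ ¬ π ∣ α ∧ cs π α = z := by
  have hpp := hP p hp
  have hπ := ha.pq hpp
  have h1 : ((∏ q ∈ P, q : ℕ) : Ei) = π * (Star.star π * ((∏ q ∈ P.erase p, q : ℕ) : Ei)) := by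
    rw [← mul_assoc, ha.mul hpp, ← Nat.cast_mul, Finset.mul_prod_erase P (fun q => q) hp]
  obtain ⟨-, -, h3⟩ := m_dvd hP hp ha h1
  obtain ⟨α, h4, h5, h6⟩ := loc1 hπ h3 z
  refine ⟨_, α, h1, h4, ?_, h5, h6⟩
  rw [h1]
  refine IsCoprime.mul_right ?_ ?_
  · exact ((hπ.prime.irreducible.coprime_iff_not_dvd).2 h5).symm
  · obtain ⟨k, hk⟩ := h4
    exact ⟨1, -k, by linear_combination hk⟩

end fin

end Pool.Agent.W2helper95.TQ.E3
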