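import Mathlib
import Pool.Agent.Y141.Art.A
import Pool.Agent.W2helper95.TQ.E3a

/-!
# Project TQ, piece E3 (helper95): Kummer theory of the cube roots
-/

set_option autoImplicit false
set_option linter.unusedSectionVars false

namespace Pool.Agent.W2helper95.TQ.E3

open NumberField IsDedekindDomain
open Pool.Agent.Y692.QS
open Pool.Agent.Y141.Art (om om_eq om_prim exists_basis norm_eq)
open scoped Classical

section K

variable (K : Type) [Field K] [NumberField K] [IsCyclotomicExtension {3} ℚ K]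

lemma om_mul : om K * om K = -1 - om K := by linear_combination om_eq (F := K)

/-- the homomorphism from the Eisenstein integers -/
noncomputable def phiHom : Ei →+* 𝓞 K := hom (om K) (om_mul K)

lemma phiHom_apply (α : Ei) : phiHom K α = α.re + α.im * om K := hom_apply _ _ _

lemma norm_phiHom (α : Ei) : Algebra.norm ℤ (phiHom K α) = nr α := by
  rw [phiHom_apply, norm_eq, nr]

lemma phiHom_bij : Function.Bijective (phiHom K) := by
  constructor
  · rw [injective_iff_map_eq_zero]
    intro α h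
    have h1 := norm_phiHom K α
    rw [h, Algebra.norm_zero] at h1
    exact nr_zero_iff.1 h1.symm
  · intro a
    obtain ⟨B, h0, h1⟩ := exists_basis (F := K)
    refine ⟨⟨B.repr a 0, B.repr a 1⟩, ?_⟩
    rw [phiHom_apply]
    conv_rhs => rw [← B.sum_repr a]
    rw [Fin.sum_univ_two, h0, h1]
    simp

/-- the isomorphism with the ring of integers -/
noncomputable def phi : Ei ≃+* 𝓞 K := RingEquiv.ofBijective (phiHom K) (phiHom_bij K)

lemma phi_apply (α : Ei) : phi K α = phiHom K α := rfl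

lemma norm_phi (α : Ei) : Algebra.norm ℤ (phi K α) = nr α := norm_phiHom K α

lemma phi_w : phi K w = om K := hom_w _ (om_mul K)

lemma card_phi (α : Ei) : Nat.card (𝓞 K ⧸ Ideal.span {phi K α}) = (nr α).natAbs := by
  rw [← norm_phi K α, ← Ideal.absNorm_span_singleton, Ideal.absNorm_apply,
    Submodule.cardQuot_apply]

end K

section dual

variable {ι : Type} [Fintype ι]

/-- duality -/
lemma dual_le {A B : Submodule (ZMod 3) (ι → ZMod 3)}
    (h : ∀ a : ι → ZMod 3, (∀ v ∈ B, ∑ i, a i * v i = 0) → ∀ v ∈ A, ∑ i, a i * v i = 0) :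
    A ≤ B := by
  intro v hv
  by_contra hvB
  obtain ⟨f, hf, hB⟩ := Submodule.exists_le_ker_of_notMem hvB
  have hfe : ∀ u : ι → ZMod 3, f u = ∑ i, f (Pi.single i 1) * u i := by
    intro u
    rw [LinearMap.pi_apply_eq_sum_univ f u]
    refine Finset.sum_congr rfl fun i _ => ?_
    rw [smul_eq_mul, mul_comm]
    congr 2
    ext j
    simp [Pi.single_apply, eq_comm]
  apply hf
  rw [hfe]
  refine h _ (fun u hu => ?_) v hv
  rw [← hfe]
  exact hB hu

end dual

section main

variable {K F : Type} [Field K] [NumberField K] [IsCyclotomicExtension {3} ℚ K]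
  [Field F] [NumberField F] [Algebra K F]

variable (K F) in
/-- the cube root of unity in the ring of integers of `F` -/
noncomputable def oF : 𝓞 F := algebraMap (𝓞 K) (𝓞 F) (om K)

lemma oF_eq : (oF K F) ^ 2 + oF K F + 1 = 0 := by
  have := congrArg (algebraMap (𝓞 K) (𝓞 F)) (om_eq (F := K))
  rw [map_add, map_add, map_pow, map_one, map_zero] at this
  exact this

lemma oF_cube : (oF K F) ^ 3 = 1 := by linear_combination (oF K F - 1) * oF_eq (K := K) (F := F)

lemma oF_ne_one : oF K F ≠ 1 := by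
  intro h
  have h1 := oF_eq (K := K) (F := F)
  rw [h] at h1
  have h2 : (3 : 𝓞 F) = 0 := by linear_combination h1
  exact (by norm_num : (3 : 𝓞 F) ≠ 0) h2

variable (K F) in
/-- the powers -/
noncomputable def Eo (c : ZMod 3) : 𝓞 F := (oF K F) ^ c.val

lemma pow_mod3 (n : ℕ) : (oF K F) ^ n = (oF K F) ^ (n % 3) := by
  conv_lhs => rw [← Nat.div_add_mod n 3, pow_add, pow_mul, oF_cube, one_pow, one_mul]

lemma Eo_nat (n : ℕ) : Eo K F (n : ZMod 3) = (oF K F) ^ n := by
  unfold Eo
  rw [ZMod.val_natCast, ← pow_mod3]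

lemma Eo_add (a b : ZMod 3) : Eo K F (a + b) = Eo K F a * Eo K F b := by
  unfold Eo
  rw [ZMod.val_add, ← pow_mod3, pow_add]

lemma Eo_zero : Eo K F 0 = 1 := by
  unfold Eo
  rw [ZMod.val_zero, pow_zero]

lemma Eo_ne_one {c : ZMod 3} (h : c ≠ 0) : Eo K F c ≠ 1 := by
  have h1 : c = 1 ∨ c = 2 := by
    revert c
    decide
  rcases h1 with rfl | rfl
  · unfold Eo
    rw [show (1 : ZMod 3).val = 1 from rfl, pow_one]
    exact oF_ne_one
  · unfold Eo
    rw [show (2 : ZMod 3).val = 2 from rfl]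
    intro h2
    apply oF_ne_one (K := K) (F := F)
    calc oF K F = oF K F * oF K F ^ 2 := by rw [h2, mul_one]
      _ = oF K F ^ 3 := by ring
      _ = 1 := oF_cube

lemma Eo_mul_neg (c : ZMod 3) : Eo K F c * Eo K F (-c) = 1 := by
  rw [← Eo_add, add_neg_cancel, Eo_zero]

lemma Eo_ne_zero (c : ZMod 3) : Eo K F c ≠ 0 := by
  intro h
  have := Eo_mul_neg (K := K) (F := F) c
  rw [h, zero_mul] at this
  exact zero_ne_one this

lemma Eo_inj {a b : ZMod 3} (h : Eo K F a = Eo K F b) : a = b := by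
  by_contra hne
  apply Eo_ne_one (K := K) (F := F) (sub_ne_zero.2 hne)
  rw [sub_eq_add_neg, Eo_add, h, Eo_mul_neg]

/-- `Eo c - 1` divides three -/
lemma Eo_sub_dvd {c : ZMod 3} (h : c ≠ 0) : (Eo K F c - 1) ∣ (3 : 𝓞 F) := by
  have h1 : c = 1 ∨ c = 2 := by
    revert c
    decide
  have h2 := oF_eq (K := K) (F := F)
  rcases h1 with rfl | rfl
  · unfold Eo
    rw [show (1 : ZMod 3).val = 1 from rfl, pow_one]
    exact ⟨-(oF K F) - 2, by linear_combination h2⟩
  · unfold Eo
    rw [show (2 : ZMod 3).val = 2 from rfl]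
    exact ⟨oF K F - 1, by linear_combination (-oF K F + 2) * h2⟩

lemma Eo_map (c : ZMod 3) : Eo K F c = algebraMap (𝓞 K) (𝓞 F) (phi K (w ^ c.val)) := by
  unfold Eo oF
  rw [map_pow, map_pow, phi_w]

lemma smul_oF (g : Gal(F/K)) : g • (oF K F) = oF K F := by
  apply RingOfIntegers.ext
  change g (algebraMap K F (om K : K)) = algebraMap K F (om K : K)
  exact g.commutes _

lemma smul_Eo (g : Gal(F/K)) (c : ZMod 3) : g • (Eo K F c) = Eo K F c := by
  unfold Eo
  rw [smul_pow', smul_oF]

lemma cube_eq {y t : 𝓞 F} (h : y ^ 3 = t ^ 3) : ∃ c : ZMod 3, y = Eo K F c * t := by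
  have h2 := oF_eq (K := K) (F := F)
  have h1 : (y - t) * ((y - oF K F * t) * (y - oF K F ^ 2 * t)) = 0 := by
    linear_combination h + (-(y ^ 2 * t) + y * t ^ 2 * (oF K F) - t ^ 3 * (oF K F - 1)) * h2
  rcases mul_eq_zero.1 h1 with h3 | h3
  · exact ⟨0, by rw [Eo_zero, one_mul]; exact sub_eq_zero.1 h3⟩
  · rcases mul_eq_zero.1 h3 with h4 | h4
    · refine ⟨1, ?_⟩
      unfold Eo
      rw [show (1 : ZMod 3).val = 1 from rfl, pow_one]
      exact sub_eq_zero.1 h4
    · refine ⟨2, ?_⟩
      unfold Eo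
      rw [show (2 : ZMod 3).val = 2 from rfl]
      exact sub_eq_zero.1 h4

end main

end Pool.Agent.W2helper95.TQ.E3
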