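import Mathlib
import Pool.Agent.W2helper95.TQ.E3b

/-!
# Project TQ, piece E3 (helper95): the Galois group
-/

set_option autoImplicit false
set_option linter.unusedSectionVars false

namespace Pool.Agent.W2helper95.TQ.E3

open NumberField IsDedekindDomain
open Pool.Agent.Y692.QS
open scoped Classical

/-- the data: `F = K(x i)`, `x i` are cube roots of the `D i` -/
structure Dt (K F : Type) [Field K] [NumberField K] [Field F] [NumberField F] [Algebra K F]
    {ι : Type} (x : ι → 𝓞 F) (D : ι → ℕ) (P : Finset ℕ) : Prop where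
  cube : ∀ i, x i ^ 3 = (D i : 𝓞 F)
  g9 : ∀ i, G9 (D i)
  gen : IntermediateField.adjoin K (Set.range fun i => (x i : F)) = ⊤
  p1 : ∀ p ∈ P, P1 p
  supp : ∀ i, (D i).primeFactors ⊆ P
  ex : ∀ p ∈ P, ∃ i, p ∣ D i
  cf : ∀ i p, p.Prime → ¬ p ^ 3 ∣ D i

section

variable {K F : Type} [Field K] [NumberField K] [IsCyclotomicExtension {3} ℚ K]
  [Field F] [NumberField F] [Algebra K F]
  {ι : Type} {x : ι → 𝓞 F} {D : ι → ℕ} {P : Finset ℕ}

lemma smul_nat (g : Gal(F/K)) (n : ℕ) : g • (n : 𝓞 F) = n := by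
  have := map_natCast (MulSemiringAction.toRingHom Gal(F/K) (𝓞 F) g) n
  exact this

variable (K x) in
/-- the Kummer characters -/
noncomputable def ze (g : Gal(F/K)) (i : ι) : ZMod 3 :=
  if h : ∃ c : ZMod 3, g • x i = Eo K F c * x i then h.choose else 0

variable (h : Dt K F x D P)

include h

lemma ze_spec (g : Gal(F/K)) (i : ι) : g • x i = Eo K F (ze K x g i) * x i := by
  have h1 : ∃ c : ZMod 3, g • x i = Eo K F c * x i := by
    apply cube_eq
    rw [← smul_pow', h.cube, smul_nat]
  unfold ze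
  rw [dif_pos h1]
  exact h1.choose_spec

lemma x_ne (i : ι) : x i ≠ 0 := by
  intro h0
  have h1 := h.cube i
  rw [h0, zero_pow (by norm_num)] at h1
  exact (h.g9 i).sp.1 (by exact_mod_cast h1.symm)

lemma ze_eq {g : Gal(F/K)} {i : ι} {c : ZMod 3} (hc : g • x i = Eo K F c * x i) :
    ze K x g i = c := by
  apply Eo_inj (K := K) (F := F)
  apply mul_right_cancel₀ (x_ne h i)
  rw [← ze_spec h, hc]

lemma ze_one (i : ι) : ze K x (1 : Gal(F/K)) i = 0 := by
  apply ze_eq h
  rw [one_smul, Eo_zero, one_mul]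

lemma ze_mul (g g' : Gal(F/K)) (i : ι) : ze K x (g * g') i = ze K x g i + ze K x g' i := by
  apply ze_eq h
  rw [mul_smul, ze_spec h g', smul_mul', smul_Eo, ze_spec h g, Eo_add]
  ring

lemma ze_pow (g : Gal(F/K)) (n : ℕ) (i : ι) : ze K x (g ^ n) i = n * ze K x g i := by
  induction n with
  | zero => rw [pow_zero, ze_one h, Nat.cast_zero, zero_mul]
  | succ n ih =>
    rw [pow_succ, ze_mul h, ih]
    push_cast
    ring

lemma ze_inj {g : Gal(F/K)} (hg : ∀ i, ze K x g i = 0) : g = 1 := by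
  have h1 : IntermediateField.adjoin K (Set.range fun i => (x i : F)) ≤
      IntermediateField.fixedField (Subgroup.zpowers g) := by
    rw [IntermediateField.adjoin_le_iff]
    rintro _ ⟨i, rfl⟩
    have h2 : g ∈ MulAction.stabilizer Gal(F/K) (x i : F) := by
      rw [MulAction.mem_stabilizer_iff]
      have h3 := ze_spec h g i
      rw [hg i, Eo_zero, one_mul] at h3
      have h4 := congrArg (algebraMap (𝓞 F) F) h3
      exact h4
    have h5 : Subgroup.zpowers g ≤ MulAction.stabilizer Gal(F/K) (x i : F) :=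
      (Subgroup.zpowers_le).2 h2
    intro m
    exact h5 m.2
  rw [h.gen] at h1
  apply AlgEquiv.ext
  intro y
  have h2 : y ∈ IntermediateField.fixedField (Subgroup.zpowers g) := h1 IntermediateField.mem_top
  exact h2 ⟨g, Subgroup.mem_zpowers g⟩

lemma ze_inj' {g g' : Gal(F/K)} (hg : ∀ i, ze K x g i = ze K x g' i) : g = g' := by
  have h1 : g * g'⁻¹ = 1 := by
    apply ze_inj h
    intro i
    have h2 := ze_mul h (g * g'⁻¹) g' i
    rw [inv_mul_cancel_right, hg i] at h2
    have h3 : ze K x (g * g'⁻¹) i + ze K x g' i = 0 + ze K x g' i := by rw [← h2, zero_add]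
    exact add_right_cancel h3
  exact mul_inv_eq_one.1 h1

/-- the action on the products -/
lemma smul_prod [Fintype ι] (g : Gal(F/K)) (a : ι → ZMod 3) :
    g • (∏ i, x i ^ (a i).val) = Eo K F (∑ i, a i * ze K x g i) * ∏ i, x i ^ (a i).val := by
  rw [Finset.smul_prod']
  have h1 : ∀ S : Finset ι, Eo K F (∑ i ∈ S, a i * ze K x g i) =
      ∏ i ∈ S, Eo K F (a i * ze K x g i) := by
    intro S
    induction S using Finset.induction_on with
    | empty => rw [Finset.sum_empty, Finset.prod_empty, Eo_zero]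
    | insert i S hi ih => rw [Finset.sum_insert hi, Finset.prod_insert hi, Eo_add, ih]
  rw [h1, ← Finset.prod_mul_distrib]
  refine Finset.prod_congr rfl fun i _ => ?_
  rw [smul_pow', ze_spec h, mul_pow]
  congr 1
  have h2 : ∀ (n : ℕ) (c : ZMod 3), Eo K F c ^ n = Eo K F (n * c) := by
    intro n c
    induction n with
    | zero => rw [pow_zero, Nat.cast_zero, zero_mul, Eo_zero]
    | succ n ih =>
      rw [pow_succ, ih, ← Eo_add]
      congr 1
      push_cast
      ring
  rw [h2, ZMod.natCast_zmod_val]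

omit h in
lemma fact_prod [Fintype ι] {D : ι → ℕ} (hD : ∀ i, D i ≠ 0) (a : ι → ZMod 3) (p : ℕ) :
    (((∏ i, D i ^ (a i).val).factorization p : ℕ) : ZMod 3) =
      ∑ i, a i * ((D i).factorization p : ZMod 3) := by
  rw [Nat.factorization_prod (fun i _ => pow_ne_zero _ (hD i)), Finsupp.finsetSum_apply]
  push_cast
  refine Finset.sum_congr rfl fun i _ => ?_
  rw [Nat.factorization_pow, Finsupp.smul_apply, smul_eq_mul]
  push_cast
  rw [ZMod.natCast_zmod_val]

/-- the duality -/
lemma dual_iff [Fintype ι] [IsGalois K F] (a : ι → ZMod 3) :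
    (∀ g : Gal(F/K), ∑ i, a i * ze K x g i = 0) ↔
      ∀ p ∈ P, ∑ i, a i * ((D i).factorization p : ZMod 3) = 0 := by
  have hD : ∀ i, D i ≠ 0 := fun i => (h.g9 i).sp.1
  set Y : 𝓞 F := ∏ i, x i ^ (a i).val with hY
  set E : ℕ := ∏ i, D i ^ (a i).val with hE
  have hE0 : E ≠ 0 := by
    rw [hE]
    exact Finset.prod_ne_zero_iff.2 fun i _ => pow_ne_zero _ (hD i)
  have hYE : Y ^ 3 = (E : 𝓞 F) := by
    rw [hY, hE, ← Finset.prod_pow]
    push_cast
    refine Finset.prod_congr rfl fun i _ => ?_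
    rw [← h.cube i]
    ring
  have hY0 : Y ≠ 0 := by
    intro h0
    rw [h0, zero_pow (by norm_num)] at hYE
    exact hE0 (by exact_mod_cast hYE.symm)
  have hsm : ∀ g : Gal(F/K), g • Y = Eo K F (∑ i, a i * ze K x g i) * Y := fun g => smul_prod h g a
  have hfix : (∀ g : Gal(F/K), ∑ i, a i * ze K x g i = 0) ↔ ∀ g : Gal(F/K), g • Y = Y := by
    refine forall_congr' fun g => ?_
    rw [hsm]
    constructor
    · intro h1
      rw [h1, Eo_zero, one_mul]
    · intro h1
      by_contra h2
      apply Eo_ne_one (K := K) (F := F) h2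
      exact mul_right_cancel₀ hY0 (by rw [h1, one_mul])
  rw [hfix]
  constructor
  · intro h1 p hp
    obtain ⟨y, hy⟩ := Algebra.IsInvariant.isInvariant (A := 𝓞 K) (G := Gal(F/K)) Y h1
    have h2 : y ^ 3 = (E : 𝓞 K) := by
      apply FaithfulSMul.algebraMap_injective (𝓞 K) (𝓞 F)
      rw [map_pow, hy, hYE, map_natCast]
    obtain ⟨α, rfl⟩ := (phi K).surjective y
    have h3 := congrArg (Algebra.norm ℤ) h2
    rw [map_pow, norm_phi] at h3
    have h4 : Algebra.norm ℤ ((E : ℕ) : 𝓞 K) = (E : ℤ) ^ 2 := by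
      have h5 : ((E : ℕ) : 𝓞 K) = phi K (E : Ei) := (map_natCast (phi K) E).symm
      rw [h5, norm_phi, nr_nat]
    rw [h4] at h3
    have h5 : (nr α).natAbs ^ 3 = E ^ 2 := by
      have := congrArg Int.natAbs h3
      rw [Int.natAbs_pow, Int.natAbs_pow, Int.natAbs_natCast] at this
      exact this
    have h6 := congrArg (fun n => n.factorization p) h5
    simp only [Nat.factorization_pow, Finsupp.smul_apply, smul_eq_mul] at h6
    rw [← fact_prod hD a p, ← hE]
    rw [ZMod.natCast_eq_zero_iff]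
    omega
  · intro h1
    have h2 : ∀ p, 3 ∣ E.factorization p := by
      intro p
      by_cases hp : p ∈ P
      · have h3 := h1 p hp
        rw [← fact_prod hD a p, ZMod.natCast_eq_zero_iff] at h3
        exact h3
      · have h3 : E.factorization p = 0 := by
          rw [hE, Nat.factorization_prod (fun i _ => pow_ne_zero _ (hD i)),
            Finsupp.finsetSum_apply]
          refine Finset.sum_eq_zero fun i _ => ?_
          rw [Nat.factorization_pow, Finsupp.smul_apply, smul_eq_mul]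
          have h4 : (D i).factorization p = 0 := by
            rw [← Finsupp.notMem_support_iff, Nat.support_factorization]
            exact fun h5 => hp (h.supp i h5)
          rw [h4, mul_zero]
        rw [h3]
        exact dvd_zero _
    obtain ⟨n, hn⟩ : ∃ n : ℕ, E = n ^ 3 := by
      refine ⟨E.factorization.prod fun p k => p ^ (k / 3), ?_⟩
      rw [Finsupp.prod, ← Finset.prod_pow]
      conv_lhs => rw [← Nat.prod_factorization_pow_eq_self hE0]
      rw [Finsupp.prod]
      refine Finset.prod_congr rfl fun p _ => ?_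
      rw [← pow_mul, Nat.div_mul_cancel (h2 p)]
    obtain ⟨c, hc⟩ := cube_eq (K := K) (y := Y) (t := (n : 𝓞 F)) (by
      rw [hYE, hn]
      push_cast
      rfl)
    intro g
    rw [hc, smul_mul', smul_Eo, smul_nat]

/-- the group of the vectors of the Kummer characters -/
def WG [Fintype ι] : Submodule (ZMod 3) (ι → ZMod 3) where
  carrier := {v | ∃ g : Gal(F/K), v = ze K x g}
  zero_mem' := ⟨1, by ext i; rw [ze_one h]; rfl⟩
  add_mem' := by
    rintro _ _ ⟨g, rfl⟩ ⟨g', rfl⟩
    exact ⟨g * g', by ext i; rw [ze_mul h]; rfl⟩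
  smul_mem' := by
    rintro c _ ⟨g, rfl⟩
    exact ⟨g ^ c.val, by ext i; rw [ze_pow h, ZMod.natCast_zmod_val]; rfl⟩

omit h in
variable (P D) in
/-- the map given by the exponents -/
def TL [Fintype ι] : (ℕ → ZMod 3) →ₗ[ZMod 3] (ι → ZMod 3) where
  toFun t i := ∑ p ∈ P, ((D i).factorization p : ZMod 3) * t p
  map_add' s t := by
    ext i
    simp only [Pi.add_apply, mul_add, Finset.sum_add_distrib]
  map_smul' c t := by
    ext i
    simp only [Pi.smul_apply, smul_eq_mul, RingHom.id_apply, Finset.mul_sum]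
    exact Finset.sum_congr rfl fun p _ => by ring

omit h in
lemma dual_TL [Fintype ι] (a : ι → ZMod 3) :
    (∀ v ∈ LinearMap.range (TL D P), ∑ i, a i * v i = 0) ↔
      ∀ p ∈ P, ∑ i, a i * ((D i).factorization p : ZMod 3) = 0 := by
  constructor
  · intro h1 p hp
    have h2 := h1 _ ⟨Pi.single p 1, rfl⟩
    rw [← h2]
    refine Finset.sum_congr rfl fun i _ => ?_
    change _ = a i * ∑ q ∈ P, ((D i).factorization q : ZMod 3) * (Pi.single p 1 : ℕ → ZMod 3) q
    rw [Finset.sum_eq_single p]
    · rw [Pi.single_eq_same, mul_one]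
    · intro q _ hq
      rw [Pi.single_eq_of_ne hq, mul_zero]
    · exact fun h3 => absurd hp h3
  · rintro h1 _ ⟨t, rfl⟩
    change ∑ i, a i * ∑ q ∈ P, ((D i).factorization q : ZMod 3) * t q = 0
    simp only [Finset.mul_sum]
    rw [Finset.sum_comm]
    refine Finset.sum_eq_zero fun p hp => ?_
    have h2 := h1 p hp
    calc ∑ i, a i * (((D i).factorization p : ZMod 3) * t p)
        = (∑ i, a i * ((D i).factorization p : ZMod 3)) * t p := by
          rw [Finset.sum_mul]
          exact Finset.sum_congr rfl fun i _ => by ring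
      _ = 0 := by rw [h2, zero_mul]

lemma WG_eq [Fintype ι] [IsGalois K F] : WG h = LinearMap.range (TL D P) := by
  have h1 : ∀ a : ι → ZMod 3, (∀ v ∈ WG h, ∑ i, a i * v i = 0) ↔
      ∀ v ∈ LinearMap.range (TL D P), ∑ i, a i * v i = 0 := by
    intro a
    rw [dual_TL, ← dual_iff h a]
    constructor
    · exact fun h2 g => h2 _ ⟨g, rfl⟩
    · rintro h2 _ ⟨g, rfl⟩
      exact h2 g
  exact le_antisymm (dual_le fun a => (h1 a).2) (dual_le fun a => (h1 a).1)

/-- every family of symbols is realized -/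
lemma exists_g [Fintype ι] [IsGalois K F] (t : ℕ → ZMod 3) :
    ∃ g : Gal(F/K), ∀ i, ze K x g i = ∑ p ∈ P, ((D i).factorization p : ZMod 3) * t p := by
  have h1 : TL D P t ∈ WG h := by
    rw [WG_eq h]
    exact ⟨t, rfl⟩
  obtain ⟨g, hg⟩ := h1
  exact ⟨g, fun i => (congrFun hg i).symm⟩

lemma exists_t [Fintype ι] [IsGalois K F] (g : Gal(F/K)) :
    ∃ t : ℕ → ZMod 3, ∀ i, ze K x g i = ∑ p ∈ P, ((D i).factorization p : ZMod 3) * t p := by
  have h1 : ze K x g ∈ LinearMap.range (TL D P) := by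
    rw [← WG_eq h]
    exact ⟨g, rfl⟩
  obtain ⟨t, ht⟩ := h1
  exact ⟨t, fun i => (congrFun ht i).symm⟩

end

end Pool.Agent.W2helper95.TQ.E3
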