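import Mathlib
import Pool.Agent.Y696.Bld
import Pool.Agent.W2helper95.TQ.E3c

/-!
# Project TQ, piece E3 (helper95): Frobenius and inertia
-/

set_option autoImplicit false
set_option linter.unusedSectionVars false

namespace Pool.Agent.W2helper95.TQ.E3

open NumberField IsDedekindDomain
open Pool.Agent.Y692.QS
open Pool.Agent.Y715.T.Rec (cs nn la la_sq)
open Pool.Agent.Y715.T.RecG (Pq cs_spec cs_of cs_congr cs_mul cs_one cs_neg cs_pow cs_uniq)
open scoped Classical

section

variable {K F : Type} [Field K] [NumberField K] [IsCyclotomicExtension {3} ℚ K]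
  [Field F] [NumberField F] [Algebra K F]

variable (K F) in
/-- the embedding of the Eisenstein integers -/
noncomputable def io : Ei →+* 𝓞 F := (algebraMap (𝓞 K) (𝓞 F)).comp (phi K : Ei →+* 𝓞 K)

lemma io_apply (a : Ei) : io K F a = algebraMap (𝓞 K) (𝓞 F) (phi K a) := rfl

lemma io_w_pow (c : ZMod 3) : io K F (w ^ c.val) = Eo K F c := (Eo_map c).symm

lemma io_nat (n : ℕ) : io K F (n : Ei) = n := map_natCast _ n

/-- the primes below -/
lemma io_mem {v : HeightOneSpectrum (𝓞 F)} {π : Ei} (hπ : Prime π) (hv : io K F π ∈ v.asIdeal)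
    (a : Ei) : io K F a ∈ v.asIdeal ↔ π ∣ a := by
  have hmax : (Ideal.span {π}).IsMaximal :=
    PrincipalIdealRing.isMaximal_of_irreducible hπ.irreducible
  have h1 : Ideal.span {π} = v.asIdeal.comap (io K F) := by
    refine hmax.eq_of_le (Ideal.IsPrime.ne_top inferInstance) ?_
    rw [Ideal.span_singleton_le_iff_mem, Ideal.mem_comap]
    exact hv
  rw [← Ideal.mem_span_singleton, h1, Ideal.mem_comap]

variable {ι : Type} {x : ι → 𝓞 F} {D : ι → ℕ} {P : Finset ℕ}

lemma one_notMem (v : HeightOneSpectrum (𝓞 F)) : (1 : 𝓞 F) ∉ v.asIdeal := fun h =>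
  v.isPrime.ne_top ((Ideal.eq_top_iff_one _).2 h)

lemma Eo_notMem (v : HeightOneSpectrum (𝓞 F)) (c : ZMod 3) : Eo K F c ∉ v.asIdeal := fun h =>
  one_notMem v (by
    rw [← Eo_mul_neg (K := K) c]
    exact v.asIdeal.mul_mem_right _ h)

/-- the difference of two different cube roots of unity -/
lemma Eo_sub_mem {v : HeightOneSpectrum (𝓞 F)} (h3 : (3 : 𝓞 F) ∉ v.asIdeal) {a b : ZMod 3}
    (h : Eo K F a - Eo K F b ∈ v.asIdeal) : a = b := by
  by_contra hne
  have h1 : Eo K F (a - b) - 1 ∈ v.asIdeal := by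
    have e : Eo K F (a - b) - 1 = (Eo K F a - Eo K F b) * Eo K F (-b) := by
      rw [sub_mul, Eo_mul_neg, ← Eo_add, ← sub_eq_add_neg a b]
    rw [e]
    exact v.asIdeal.mul_mem_right _ h
  apply h3
  obtain ⟨k, hk⟩ := Eo_sub_dvd (K := K) (F := F) (sub_ne_zero.2 hne)
  rw [hk]
  exact v.asIdeal.mul_mem_right _ h1

variable (h : Dt K F x D P)

include h

lemma x_notMem {v : HeightOneSpectrum (𝓞 F)} {i : ι} (hD : (D i : 𝓞 F) ∉ v.asIdeal) :
    x i ∉ v.asIdeal := by
  intro h1
  apply hD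
  rw [← h.cube i]
  exact Ideal.pow_mem_of_mem _ h1 3 (by norm_num)

/-- inertia at the primes prime to `3 D` -/
lemma ine_one {v : HeightOneSpectrum (𝓞 F)} {g : Gal(F/K)} {i : ι} (h3 : (3 : 𝓞 F) ∉ v.asIdeal)
    (hD : (D i : 𝓞 F) ∉ v.asIdeal) (hg : g • x i - x i ∈ v.asIdeal) : ze K x g i = 0 := by
  rw [ze_spec h] at hg
  have h1 : (Eo K F (ze K x g i) - Eo K F 0) * x i ∈ v.asIdeal := by
    rw [Eo_zero, sub_mul, one_mul]
    exact hg
  rcases v.isPrime.mem_or_mem h1 with h2 | h2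
  · exact Eo_sub_mem h3 h2
  · exact absurd h2 (x_notMem h hD)

/-- the element `(x - 1)/√-3` is integral -/
lemma exists_s (i : ι) : ∃ (s : 𝓞 F) (a : ℕ), x i = 1 + io K F la * s ∧ D i = 1 + 9 * a ∧
    s ^ 3 - io K F la * s ^ 2 - s = io K F la * a := by
  obtain ⟨a, ha⟩ : ∃ a, D i = 1 + 9 * a := ⟨D i / 9, by have := (h.g9 i).mod; omega⟩
  have hl : io K F la * io K F la = -3 := by
    rw [← map_mul, la_sq, map_neg, map_ofNat]
  set l : 𝓞 F := io K F la with hldef
  have hl0 : (l : F) ≠ 0 := by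
    intro h0
    have h1 : l = 0 := by
      apply RingOfIntegers.ext
      rw [h0]
      rfl
    rw [h1, mul_zero] at hl
    have h2 : (3 : 𝓞 F) = 0 := by linear_combination hl
    exact (by norm_num : (3 : 𝓞 F) ≠ 0) h2
  have hlF : (l : F) * l = -3 := by
    have := congrArg (algebraMap (𝓞 F) F) hl
    rw [map_mul, map_neg, map_ofNat] at this
    exact this
  have hxF : (x i : F) ^ 3 = 1 + 9 * a := by
    have := congrArg (algebraMap (𝓞 F) F) (h.cube i)
    rw [map_pow, map_natCast, ha] at this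
    push_cast at this
    exact this
  set t : F := ((x i : F) - 1) / l with ht
  have hxt : (x i : F) = 1 + l * t := by
    rw [ht]
    field_simp
    ring
  have heq : t ^ 3 - l * t ^ 2 - t - l * a = 0 := by
    have h4 : (-3 * (l : F)) * (t ^ 3 - l * t ^ 2 - t - l * a) = 0 := by
      rw [hxt] at hxF
      linear_combination hxF + (3 * a - l * t ^ 3) * hlF
    refine (mul_eq_zero.1 h4).resolve_left (mul_ne_zero (by norm_num) hl0)
  have hint : IsIntegral (𝓞 F) t := by
    refine ⟨Polynomial.X ^ 3 - Polynomial.C l * Polynomial.X ^ 2 - Polynomial.X -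
      Polynomial.C (l * a), ?_, ?_⟩
    · monicity!
    · simp only [Polynomial.eval₂_sub, Polynomial.eval₂_mul, Polynomial.eval₂_pow,
        Polynomial.eval₂_X, Polynomial.eval₂_C, map_mul, map_natCast, Polynomial.eval₂_natCast]
      exact heq
  obtain ⟨s, hs⟩ := IsIntegrallyClosed.isIntegral_iff.1 hint
  refine ⟨s, a, ?_, ha, ?_⟩
  · apply RingOfIntegers.ext
    rw [hxt, ← hs]
    simp
  · apply RingOfIntegers.ext
    have : (algebraMap (𝓞 F) F) (s ^ 3 - l * s ^ 2 - s - l * a) = 0 := by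
      simp only [map_sub, map_mul, map_pow, map_natCast, hs]
      exact heq
    rw [map_sub, sub_eq_zero] at this
    exact this

omit h in
lemma io_la : io K F la = 1 + 2 * oF K F := by
  have h1 : (la : Ei) = 1 + 2 * w := by decide
  rw [h1, map_add, map_mul, map_one, map_ofNat, io_apply, phi_w]
  rfl

omit h in
lemma io_la_sq : io K F la * io K F la = -3 := by
  rw [← map_mul, la_sq, map_neg, map_ofNat]

omit h in
lemma io_la_ne : io K F la ≠ 0 := by
  intro h0
  have h1 := io_la_sq (K := K) (F := F)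
  rw [h0, zero_mul] at h1
  have h2 : (3 : 𝓞 F) = 0 := by linear_combination h1
  exact (by norm_num : (3 : 𝓞 F) ≠ 0) h2

omit h in
/-- `Eo c - 1` is a unit multiple of `√-3` -/
lemma Eo_unit {c : ZMod 3} (hc : c ≠ 0) : ∃ (d : ZMod 3) (u : 𝓞 F), u * u = 1 ∧
    Eo K F c - 1 = u * Eo K F d * io K F la := by
  have h1 : c = 1 ∨ c = 2 := by
    revert c
    decide
  have h2 := oF_eq (K := K) (F := F)
  rcases h1 with rfl | rfl
  · refine ⟨2, -1, by ring, ?_⟩
    unfold Eo
    rw [show (1 : ZMod 3).val = 1 from rfl, show (2 : ZMod 3).val = 2 from rfl, io_la]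
    linear_combination (2 * oF K F - 1) * h2
  · refine ⟨1, 1, by ring, ?_⟩
    unfold Eo
    rw [show (1 : ZMod 3).val = 1 from rfl, show (2 : ZMod 3).val = 2 from rfl, io_la]
    linear_combination (-1) * h2

omit h in
lemma smul_io (g : Gal(F/K)) (a : Ei) : g • io K F a = io K F a := by
  apply RingOfIntegers.ext
  change g (algebraMap K F (phi K a : K)) = algebraMap K F (phi K a : K)
  exact g.commutes _

/-- the primes above three -/
lemma at_three {v : HeightOneSpectrum (𝓞 F)} {g : Gal(F/K)} (i : ι) (h3 : (3 : 𝓞 F) ∈ v.asIdeal)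
    (hg : ∀ y : 𝓞 F, y ^ 3 - y ∈ v.asIdeal → g • y - y ∈ v.asIdeal) : ze K x g i = 0 := by
  obtain ⟨s, a, hx, ha, hs⟩ := exists_s h i
  have hl : io K F la ∈ v.asIdeal := by
    have h1 : io K F la * io K F la ∈ v.asIdeal := by
      rw [io_la_sq]
      exact neg_mem h3
    rcases v.isPrime.mem_or_mem h1 with h2 | h2 <;> exact h2
  have h1 : g • s - s ∈ v.asIdeal := by
    apply hg
    have e : s ^ 3 - s = io K F la * (s ^ 2 + a) := by linear_combination hs
    rw [e]
    exact v.asIdeal.mul_mem_right _ hl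
  by_contra hc
  obtain ⟨d, u, hu, hE⟩ := Eo_unit (K := K) (F := F) hc
  have h2 : io K F la * (g • s - s) = io K F la * (u * Eo K F d * x i) := by
    have h3 := ze_spec h g i
    have h4 : g • x i = 1 + io K F la * g • s := by
      rw [hx, smul_add, smul_mul', smul_one, smul_io]
    rw [h4] at h3
    linear_combination h3 + x i * hE + hx
  have h4 := mul_left_cancel₀ io_la_ne h2
  rw [h4] at h1
  have hxv : x i ∈ v.asIdeal := by
    rcases v.isPrime.mem_or_mem h1 with h5 | h5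
    · exfalso
      rcases v.isPrime.mem_or_mem h5 with h6 | h6
      · exact one_notMem v (by rw [← hu]; exact v.asIdeal.mul_mem_right _ h6)
      · exact Eo_notMem v d h6
    · exact h5
  apply one_notMem v
  have h5 : (D i : 𝓞 F) ∈ v.asIdeal := by
    rw [← h.cube i]
    exact Ideal.pow_mem_of_mem _ hxv 3 (by norm_num)
  have e : (1 : 𝓞 F) = (D i : 𝓞 F) - 3 * (3 * a) := by
    rw [ha]
    push_cast
    ring
  rw [e]
  exact v.asIdeal.sub_mem h5 (v.asIdeal.mul_mem_right _ h3)

omit h in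
lemma nr_above_three {π : Ei} (hπ : Prime π) (h3 : π ∣ 3) : nr π = 3 := by
  have h4 : π ∣ la := by
    have h5 : π ∣ la * la := by
      rw [la_sq]
      exact (dvd_neg).2 h3
    rcases hπ.dvd_or_dvd h5 with h6 | h6 <;> exact h6
  obtain ⟨u, hu⟩ := h4
  have h6 : nr π * nr u = 3 := by
    rw [← nr_mul, ← hu]
    decide
  have h7 : nr π ≠ 1 := fun h => hπ.not_isUnit (isUnit_iff.2 h)
  have h8 := nr_nonneg π
  have h11 : nr π ∣ 3 := ⟨_, h6.symm⟩
  have h12 : nr π ≤ 3 := Int.le_of_dvd (by norm_num) h11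
  interval_cases h13 : nr π <;> omega

/-- the Frobenius automorphisms -/
theorem frob_ze {v : HeightOneSpectrum (𝓞 F)} {π : Ei} (hπ : Prime π)
    (hv : io K F π ∈ v.asIdeal) {g : Gal(F/K)}
    (hg : ∀ y : 𝓞 F, g • y - y ^ (nr π).natAbs ∈ v.asIdeal) (i : ι)
    (hD : ¬ π ∣ (D i : Ei)) : ze K x g i = XD (D i) π := by
  by_cases h3 : π ∣ 3
  · rw [XD_three (h.g9 i) hπ h3]
    have h3v : (3 : 𝓞 F) ∈ v.asIdeal := by
      have := (io_mem hπ hv 3).2 h3
      rwa [map_ofNat] at this
    refine at_three h i h3v fun y hy => ?_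
    have h1 := hg y
    rw [nr_above_three hπ h3] at h1
    have h2 := v.asIdeal.add_mem h1 hy
    have e : g • y - y ^ (3 : ℤ).natAbs + (y ^ 3 - y) = g • y - y := by
      rw [show (3 : ℤ).natAbs = 3 from rfl]
      ring
    rwa [e] at h2
  · rw [← rec_all (h.g9 i) hπ h3 hD]
    have h3v : (3 : 𝓞 F) ∉ v.asIdeal := by
      intro h4
      apply h3
      rw [← io_mem hπ hv, map_ofNat]
      exact h4
    have hDv : (D i : 𝓞 F) ∉ v.asIdeal := by
      intro h4
      apply hD
      rw [← io_mem hπ hv, io_nat]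
      exact h4
    have h1 := hg (x i)
    have h2 : x i ^ (nr π).natAbs = x i * (D i : 𝓞 F) ^ nn π := by
      rw [Pool.Agent.Y715.T.RecC.nr_nn hπ h3, pow_succ, pow_mul, h.cube i, mul_comm]
    rw [ze_spec h, h2] at h1
    have h4 : (D i : 𝓞 F) ^ nn π - Eo K F (cs π (D i : Ei)) ∈ v.asIdeal := by
      have h5 := (io_mem hπ hv _).2 (cs_spec hπ h3 hD)
      rwa [map_sub, map_pow, io_nat, io_w_pow] at h5
    have h5 : (Eo K F (ze K x g i) - Eo K F (cs π (D i : Ei))) * x i ∈ v.asIdeal := by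
      have h6 := v.asIdeal.add_mem h1 (v.asIdeal.mul_mem_left (x i) h4)
      have e : Eo K F (ze K x g i) * x i - x i * (D i : 𝓞 F) ^ nn π +
          x i * ((D i : 𝓞 F) ^ nn π - Eo K F (cs π (D i : Ei))) =
          (Eo K F (ze K x g i) - Eo K F (cs π (D i : Ei))) * x i := by ring
      rwa [e] at h6
    rcases v.isPrime.mem_or_mem h5 with h6 | h6
    · exact Eo_sub_mem h3v h6
    · exact absurd h6 (x_notMem h hDv)

omit h in
lemma notMem_of_coprime {v : HeightOneSpectrum (𝓞 F)} {p n : ℕ} (hp : p.Prime)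
    (hv : (p : 𝓞 F) ∈ v.asIdeal) (hn : ¬ p ∣ n) : (n : 𝓞 F) ∉ v.asIdeal := by
  intro h1
  obtain ⟨a, b, hab⟩ := Nat.isCoprime_iff_coprime.2 ((hp.coprime_iff_not_dvd).2 hn)
  have h2 := congrArg (fun z : ℤ => (z : 𝓞 F)) hab
  push_cast at h2
  apply one_notMem v
  rw [← h2]
  exact v.asIdeal.add_mem (v.asIdeal.mul_mem_left _ hv) (v.asIdeal.mul_mem_left _ h1)

/-- inertia at the primes above `p` -/
theorem ine_p {p : ℕ} (hp : p ∈ P) {v : HeightOneSpectrum (𝓞 F)} (hv : (p : 𝓞 F) ∈ v.asIdeal)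
    {g : Gal(F/K)} (hg : ∀ y : 𝓞 F, g • y - y ∈ v.asIdeal) :
    ∃ z : ZMod 3, ∀ i, ze K x g i = ((D i).factorization p : ZMod 3) * z := by
  have hP1 := h.p1 p hp
  have h3v : (3 : 𝓞 F) ∉ v.asIdeal := by
    have := notMem_of_coprime (n := 3) hP1.prime hv (fun hd => by
      have h5 := (Nat.prime_dvd_prime_iff_eq hP1.prime Nat.prime_three).1 hd
      have h6 := hP1.mod
      rw [h5] at h6
      norm_num at h6)
    exact_mod_cast this
  obtain ⟨j, hj⟩ := h.ex p hp
  have hDj := (h.g9 j).sp.1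
  set k0 := (D j).factorization p with hk0
  have hk1 : k0 = 1 ∨ k0 = 2 := by
    have h1 : 1 ≤ k0 := (hP1.prime.dvd_iff_one_le_factorization hDj).1 hj
    have h2 : ¬ 3 ≤ k0 := fun h3 => h.cf j p hP1.prime
      ((hP1.prime.pow_dvd_iff_le_factorization hDj).2 h3)
    omega
  have hkk : (k0 : ZMod 3) * k0 = 1 := by
    rcases hk1 with h1 | h1 <;> rw [h1] <;> decide
  refine ⟨(k0 : ZMod 3) * ze K x g j, fun i => ?_⟩
  have hDi := (h.g9 i).sp.1
  set k := (D i).factorization p with hk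
  set a : ℕ := (-((k : ZMod 3) * k0)).val with ha
  set M : ℕ := D i * D j ^ a with hM
  have hM0 : M ≠ 0 := mul_ne_zero hDi (pow_ne_zero _ hDj)
  have hMf : M.factorization p = k + a * k0 := by
    rw [hM, Nat.factorization_mul hDi (pow_ne_zero _ hDj), Nat.factorization_pow]
    simp [hk, hk0]
  obtain ⟨b, hb⟩ : 3 ∣ M.factorization p := by
    rw [← ZMod.natCast_eq_zero_iff, hMf]
    push_cast
    rw [ha, ZMod.natCast_zmod_val]
    linear_combination (-(k : ZMod 3)) * hkk
  set A : ℕ := M / p ^ M.factorization p with hA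
  have hMA : M = (p ^ b) ^ 3 * A := by
    have h1 := Nat.ordProj_mul_ordCompl_eq_self M p
    rw [← hA, hb, mul_comm 3 b, pow_mul] at h1
    exact h1.symm
  have hpA : ¬ p ∣ A := Nat.not_dvd_ordCompl hP1.prime hM0
  have hAv := notMem_of_coprime hP1.prime hv hpA
  have hX : (x i * x j ^ a) ^ 3 = ((p : 𝓞 F) ^ b) ^ 3 * A := by
    have h1 := congrArg (Nat.cast : ℕ → 𝓞 F) hMA
    rw [hM] at h1
    push_cast at h1
    rw [← h1, ← h.cube i, ← h.cube j]
    ring
  have hd : (p : 𝓞 F) ^ b ∣ x i * x j ^ a := by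
    rw [← IsIntegrallyClosed.pow_dvd_pow_iff (n := 3) (by norm_num), hX]
    exact dvd_mul_right _ _
  obtain ⟨Y, hY⟩ := hd
  have hp0 : (p : 𝓞 F) ^ b ≠ 0 := pow_ne_zero _ (by exact_mod_cast hP1.prime.ne_zero)
  have hYA : Y ^ 3 = A := by
    rw [hY, mul_pow] at hX
    exact mul_left_cancel₀ (pow_ne_zero 3 hp0) hX
  have hYv : Y ∉ v.asIdeal := fun h1 => hAv (by
    rw [← hYA]
    exact Ideal.pow_mem_of_mem _ h1 3 (by norm_num))
  have hgY : g • Y = Eo K F (ze K x g i + a * ze K x g j) * Y := by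
    apply mul_left_cancel₀ hp0
    have h1 : g • (x i * x j ^ a) = Eo K F (ze K x g i + a * ze K x g j) * (x i * x j ^ a) := by
      have h2 : ∀ (n : ℕ), Eo K F (ze K x g j) ^ n = Eo K F (n * ze K x g j) := by
        intro n
        induction n with
        | zero => rw [pow_zero, Nat.cast_zero, zero_mul, Eo_zero]
        | succ n ih =>
          rw [pow_succ, ih, ← Eo_add]
          congr 1
          push_cast
          ring
      rw [smul_mul', smul_pow', ze_spec h, ze_spec h, mul_pow, h2, Eo_add]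
      ring
    rw [hY, smul_mul', smul_pow', smul_nat] at h1
    rw [h1]
    ring
  have h1 := hg Y
  rw [hgY] at h1
  have h2 : (Eo K F (ze K x g i + a * ze K x g j) - Eo K F 0) * Y ∈ v.asIdeal := by
    rw [Eo_zero, sub_mul, one_mul]
    exact h1
  have h4 : ze K x g i + a * ze K x g j = 0 := by
    rcases v.isPrime.mem_or_mem h2 with h5 | h5
    · exact Eo_sub_mem h3v h5
    · exact absurd h5 hYv
  have h5 : (a : ZMod 3) = -((k : ZMod 3) * k0) := by rw [ha, ZMod.natCast_zmod_val]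
  rw [h5] at h4
  linear_combination h4

end

end Pool.Agent.W2helper95.TQ.E3
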