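import Mathlib
import Pool.Agent.W2helper95.TQ.E3d

/-!
# Project TQ, piece E3 (helper95): ramification, the Artin map
-/

set_option autoImplicit false
set_option linter.unusedSectionVars false

namespace Pool.Agent.W2helper95.TQ.E3

open NumberField IsDedekindDomain
open Pool.Agent.Y692.QS
open Pool.Agent.Y715.T.Rec (cs nn la la_sq)
open Pool.Agent.Y715.T.RecG (Pq cs_spec cs_of cs_congr cs_mul cs_one cs_neg cs_pow cs_uniq)
open Pool.Agent.Y696 (und und_lies val_of_unr mem_under_of_lies)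
open scoped Classical

section

variable {K F : Type} [Field K] [NumberField K] [IsCyclotomicExtension {3} ℚ K]
  [Field F] [NumberField F] [Algebra K F] [IsGalois K F]

omit [IsCyclotomicExtension {3} ℚ K] in
lemma card_ine (v : HeightOneSpectrum (𝓞 F)) :
    Nat.card (Ideal.inertia Gal(F/K) v.asIdeal) = v.asIdeal.ramificationIdx (𝓞 K) := by
  let p := v.asIdeal.under (𝓞 K)
  have hlo : v.asIdeal.LiesOver p := ⟨rfl⟩
  have hpp : p.IsPrime := inferInstance
  have hp0 : p ≠ ⊥ := fun h => v.ne_bot (Ideal.eq_bot_of_comap_eq_bot h)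
  have : p.IsMaximal := hpp.isMaximal hp0
  have : Finite (𝓞 K ⧸ p) := Ideal.finiteQuotientOfFreeOfNeBot p hp0
  have : Finite p.ResidueField := by
    have := Ideal.bijective_algebraMap_quotient_residueField p
    exact Finite.of_surjective _ this.2
  have h2 := Ideal.card_inertia_eq_ramificationIdxIn (G := Gal(F/K)) p v.asIdeal
  rw [Ideal.ramificationIdxIn_eq_ramificationIdx p v.asIdeal Gal(F/K)] at h2
  exact h2

omit [IsCyclotomicExtension {3} ℚ K] in
lemma mem_ine {v : HeightOneSpectrum (𝓞 F)} {g : Gal(F/K)} :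
    g ∈ Ideal.inertia Gal(F/K) v.asIdeal ↔ ∀ y : 𝓞 F, g • y - y ∈ v.asIdeal := by
  rw [AddSubgroup.mem_inertia]
  exact Iff.rfl

omit [IsCyclotomicExtension {3} ℚ K] in
lemma ram_one {v : HeightOneSpectrum (𝓞 F)}
    (hg : ∀ g : Gal(F/K), (∀ y : 𝓞 F, g • y - y ∈ v.asIdeal) → g = 1) :
    v.asIdeal.ramificationIdx (𝓞 K) = 1 := by
  rw [← card_ine, Subgroup.card_eq_one, eq_bot_iff]
  intro g h1
  rw [mem_ine] at h1
  exact hg g h1

variable {ι : Type} {x : ι → 𝓞 F} {D : ι → ℕ} {P : Finset ℕ}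

lemma phi_prime {π : Ei} (hπ : Prime π) : Prime (phi K π) :=
  (MulEquiv.prime_iff (phi K)).2 hπ

lemma span_und {v₀ : HeightOneSpectrum (𝓞 K)} {π : Ei} (hπ : Prime π)
    (hv : phi K π ∈ v₀.asIdeal) : v₀.asIdeal = Ideal.span {phi K π} := by
  have h1 : (Ideal.span {phi K π}).IsPrime :=
    (Ideal.span_singleton_prime (phi_prime hπ).ne_zero).2 (phi_prime hπ)
  have hmax : (Ideal.span {phi K π}).IsMaximal :=
    h1.isMaximal (by simpa using (phi_prime (K := K) hπ).ne_zero)
  refine (hmax.eq_of_le (Ideal.IsPrime.ne_top inferInstance) ?_).symm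
  rw [Ideal.span_singleton_le_iff_mem]
  exact hv

lemma phi_mem {v₀ : HeightOneSpectrum (𝓞 K)} {π : Ei} (hπ : Prime π)
    (hv : phi K π ∈ v₀.asIdeal) (a : Ei) : phi K a ∈ v₀.asIdeal ↔ π ∣ a := by
  rw [span_und hπ hv, Ideal.mem_span_singleton]
  exact map_dvd_iff (phi K)

/-- the valuation of `D` -/
lemma val_D {v₀ : HeightOneSpectrum (𝓞 K)} {p : ℕ} (hp : P1 p) {π : Ei} (ha : Ab p π)
    (hv : phi K π ∈ v₀.asIdeal) {n : ℕ} (hn : n ≠ 0) :
    v₀.valuation K (n : K) = WithZero.exp (-(n.factorization p : ℤ)) := by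
  have hπ := (ha.pq hp).prime
  have hv1 : v₀.valuation K ((phi K π : 𝓞 K) : K) = WithZero.exp (-1 : ℤ) := by
    have h1 := HeightOneSpectrum.valuation_of_algebraMap (K := K) v₀ (phi K π)
    have h2 := HeightOneSpectrum.intValuation_singleton v₀ (r := phi K π)
      (phi_prime hπ).ne_zero (span_und hπ hv)
    rw [← h2, ← h1]
  have hone : ∀ a : Ei, ¬ π ∣ a → v₀.valuation K ((phi K a : 𝓞 K) : K) = 1 := by
    intro a h1
    have h2 : ¬ v₀.valuation K (algebraMap (𝓞 K) K (phi K a)) < 1 := by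
      rw [HeightOneSpectrum.valuation_lt_one_iff_mem, phi_mem hπ hv]
      exact h1
    exact le_antisymm (v₀.valuation_le_one _) (not_lt.1 h2)
  have h1 : n = p ^ n.factorization p * (n / p ^ n.factorization p) :=
    (Nat.ordProj_mul_ordCompl_eq_self n p).symm
  have h2 : (n : K) = (((phi K π : 𝓞 K) : K) * ((phi K (star π) : 𝓞 K) : K)) ^ n.factorization p *
      ((phi K ((n / p ^ n.factorization p : ℕ) : Ei) : 𝓞 K) : K) := by
    have h3 : phi K π * phi K (star π) = (p : 𝓞 K) := by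
      rw [← map_mul, ha.mul hp, map_natCast]
    have h4 : ((phi K π : 𝓞 K) : K) * ((phi K (star π) : 𝓞 K) : K) = (p : K) := by
      have := congrArg (algebraMap (𝓞 K) K) h3
      rw [map_mul, map_natCast] at this
      exact this
    have h5 : ((phi K ((n / p ^ n.factorization p : ℕ) : Ei) : 𝓞 K) : K) =
        ((n / p ^ n.factorization p : ℕ) : K) := by
      rw [map_natCast]
      rfl
    rw [h4, h5]
    conv_lhs => rw [h1]
    push_cast
    rfl
  rw [h2, map_mul, map_pow, map_mul, hv1, hone _ (ha.not_star hp), mul_one,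
    hone _ (ha.nd hp (Nat.not_dvd_ordCompl hp.prime hn)), mul_one, ← WithZero.exp_nsmul]
  congr 1
  simp

/-- the primes above `p` are ramified -/
lemma ram_p (h : Dt K F x D P) {p : ℕ} (hp : p ∈ P) {π : Ei} (ha : Ab p π)
    {v : HeightOneSpectrum (𝓞 F)} (hv : io K F π ∈ v.asIdeal) :
    ∃ g : Gal(F/K), (∀ y : 𝓞 F, g • y - y ∈ v.asIdeal) ∧ g ≠ 1 := by
  by_contra hcon
  push Not at hcon
  have h1 := ram_one hcon
  have hP1 := h.p1 p hp
  obtain ⟨j, hj⟩ := h.ex p hp
  have hDj := (h.g9 j).sp.1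
  have hk1 : (D j).factorization p = 1 ∨ (D j).factorization p = 2 := by
    have h1 : 1 ≤ (D j).factorization p := (hP1.prime.dvd_iff_one_le_factorization hDj).1 hj
    have h2 : ¬ 3 ≤ (D j).factorization p := fun h3 => h.cf j p hP1.prime
      ((hP1.prime.pow_dvd_iff_le_factorization hDj).2 h3)
    omega
  have hlo := und_lies (F := K) v
  have he : (und (F := K) v).asIdeal.ramificationIdx' v.asIdeal = 1 := by
    rw [Ideal.ramificationIdx'_eq_ramificationIdx _ _ (und (F := K) v).ne_bot]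
    exact h1
  have h2 := val_of_unr hlo he ((D j : ℕ) : K)
  have hvp : phi K π ∈ (und (F := K) v).asIdeal := by
    rw [mem_under_of_lies hlo]
    exact hv
  rw [val_D hP1 ha hvp hDj, map_natCast] at h2
  have h3 : ((D j : ℕ) : F) = (x j : F) ^ 3 := by
    have := congrArg (algebraMap (𝓞 F) F) (h.cube j)
    rw [map_pow, map_natCast] at this
    exact this.symm
  rw [h3, map_pow] at h2
  have hx0 : v.valuation F (x j : F) ≠ 0 := by
    intro h0
    rw [h0, zero_pow (by norm_num)] at h2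
    exact WithZero.exp_ne_zero h2.symm
  obtain ⟨n, hn⟩ : ∃ n : ℤ, v.valuation F (x j : F) = WithZero.exp n :=
    ⟨WithZero.log _, (WithZero.exp_log hx0).symm⟩
  rw [hn, ← WithZero.exp_nsmul] at h2
  have h4 := WithZero.exp_injective h2
  rw [nsmul_eq_mul] at h4
  push_cast at h4
  omega

lemma sum_XD (h : Dt K F x D P) (i : ι) (α : Ei) :
    ∑ p ∈ P, ((D i).factorization p : ZMod 3) * sy p α = XD (D i) α := by
  unfold XD
  rw [Finsupp.sum_of_support_subset _ _ _ (fun p _ => by simp)]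
  rw [Nat.support_factorization]
  exact h.supp i

/-- a prime of `𝓞 F` that contains `D i` contains a prime factor of `D i` -/
lemma exists_prime_mem {R : Type} [CommRing R] {I : Ideal R} (hI : I.IsPrime) {n : ℕ} (hn : n ≠ 0)
    (h : (n : R) ∈ I) : ∃ p ∈ n.primeFactors, (p : R) ∈ I := by
  have h1 : (n : R) = ∏ p ∈ n.primeFactors, (p : R) ^ n.factorization p := by
    have h2 := Nat.prod_factorization_pow_eq_self hn
    conv_lhs => rw [← h2]
    rw [Finsupp.prod, Nat.support_factorization]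
    push_cast
    rfl
  rw [h1] at h
  obtain ⟨p, hp, h3⟩ := (hI.prod_mem_iff).1 h
  exact ⟨p, hp, hI.mem_of_pow_mem _ h3⟩

/-- the modulus -/
def NP (P : Finset ℕ) : ℕ := ∏ q ∈ P, q

/-- the inertia groups outside the modulus are trivial -/
lemma ine_trivial (h : Dt K F x D P) {v : HeightOneSpectrum (𝓞 F)}
    (hv : (NP P : 𝓞 F) ∉ v.asIdeal) {g : Gal(F/K)} (hg : ∀ y : 𝓞 F, g • y - y ∈ v.asIdeal) :
    g = 1 := by
  apply ze_inj h
  intro i
  by_cases h3 : (3 : 𝓞 F) ∈ v.asIdeal
  · exact at_three h i h3 fun y _ => hg y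
  · apply ine_one h h3 _ (hg (x i))
    intro h1
    obtain ⟨p, hp, h2⟩ := exists_prime_mem v.isPrime (h.g9 i).sp.1 h1
    apply hv
    obtain ⟨k, hk⟩ := Finset.dvd_prod_of_mem (fun q : ℕ => q) (h.supp i hp)
    have h4 : NP P = p * k := hk
    rw [h4]
    push_cast
    exact v.asIdeal.mul_mem_right _ h2

lemma unr (h : Dt K F x D P) {v : HeightOneSpectrum (𝓞 F)} (hv : (NP P : 𝓞 F) ∉ v.asIdeal) :
    Algebra.IsUnramifiedAt (𝓞 K) v.asIdeal := by
  have h1 := ram_one (K := K) (v := v) fun g hg => ine_trivial h hv hg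
  exact Ideal.ramificationIdx_eq_one_iff.1 h1

end

end Pool.Agent.W2helper95.TQ.E3
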