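import Mathlib
import Pool.Agent.W2helper95.TQ.E3e
import Pool.Agent.W2helper24.TQ.Stm2

/-!
# Project TQ, piece E3 (helper95): the Artin map
-/

set_option autoImplicit false
set_option linter.unusedSectionVars false

namespace Pool.Agent.W2helper95.TQ.E3

open NumberField IsDedekindDomain
open Pool.Agent.Y692.QS
open Pool.Agent.Y715.T.Rec (cs nn la la_sq)
open Pool.Agent.Y715.T.RecG (Pq cs_spec cs_of cs_congr cs_mul cs_one cs_neg cs_pow cs_uniq)
open Pool.Agent.Y350.CT (pq_star)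
open Pool.Agent.Y696 (IsArtin mem_under_of_lies)
open Pool.Agent.W2helper24.TQ (GoodC IsLoc)
open scoped Classical

section

variable {K F : Type} [Field K] [NumberField K] [IsCyclotomicExtension {3} ℚ K]
  [Field F] [NumberField F] [Algebra K F] [IsGalois K F]

variable {ι : Type} [Fintype ι] {x : ι → 𝓞 F} {D : ι → ℕ} {P : Finset ℕ}

lemma phi_NP : phi K (NP P : Ei) = (NP P : 𝓞 K) := map_natCast _ _

lemma mk_phi (α β : Ei) : (Ideal.Quotient.mk (Ideal.span {(NP P : 𝓞 K)})) (phi K α) =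
    (Ideal.Quotient.mk (Ideal.span {(NP P : 𝓞 K)})) (phi K β) ↔ (NP P : Ei) ∣ α - β := by
  rw [Ideal.Quotient.eq, Ideal.mem_span_singleton, ← phi_NP, ← map_sub]
  exact map_dvd_iff (phi K)

lemma NP_dvd {p : ℕ} (hp : p ∈ P) : (p : Ei) ∣ (NP P : Ei) :=
  Nat.cast_dvd_cast (Finset.dvd_prod_of_mem (fun q : ℕ => q) hp)

/-- lifts of units are prime to the primes -/
lemma cp_unit (hP : ∀ p ∈ P, P1 p) {α : Ei} {u : (𝓞 K ⧸ Ideal.span {(NP P : 𝓞 K)})ˣ}
    (hu : (u : 𝓞 K ⧸ Ideal.span {(NP P : 𝓞 K)}) = Ideal.Quotient.mk _ (phi K α)) :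
    ∀ p ∈ P, Cp p α := by
  intro p hp
  obtain ⟨b, hb⟩ := Ideal.Quotient.mk_surjective ((u⁻¹ : (𝓞 K ⧸ Ideal.span {(NP P : 𝓞 K)})ˣ) :
    𝓞 K ⧸ Ideal.span {(NP P : 𝓞 K)})
  obtain ⟨β, rfl⟩ := (phi K).surjective b
  have h1 : (NP P : Ei) ∣ α * β - 1 := by
    rw [← mk_phi (K := K), map_mul, map_mul, hb, ← hu, Units.mul_inv, map_one, map_one]
  have h2 : ∀ {ρ : Ei}, Prime ρ → ρ ∣ (p : Ei) → ¬ ρ ∣ α := by
    intro ρ hρ h3 h4
    apply hρ.not_isUnit
    apply isUnit_of_dvd_one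
    have h5 := dvd_sub (h4.mul_right β) ((h3.trans (NP_dvd hp)).trans h1)
    rwa [sub_sub_cancel] at h5
  have h3 := (pp_spec (hP p hp)).1
  exact ⟨h2 h3.prime (Dvd.intro _ (pp_mul (hP p hp))),
    h2 (pq_star h3).prime (Dvd.intro_left _ (pp_mul (hP p hp)))⟩

lemma isUnit_of_coprime {α : Ei} (hα : IsCoprime α (NP P : Ei)) :
    ∃ u : (𝓞 K ⧸ Ideal.span {(NP P : 𝓞 K)})ˣ,
      (u : 𝓞 K ⧸ Ideal.span {(NP P : 𝓞 K)}) = Ideal.Quotient.mk _ (phi K α) := by
  obtain ⟨a, b, hab⟩ := hα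
  have h1 : Ideal.Quotient.mk (Ideal.span {(NP P : 𝓞 K)}) (phi K α) *
      Ideal.Quotient.mk _ (phi K a) = 1 := by
    rw [← map_mul, ← map_mul, ← map_one (Ideal.Quotient.mk (Ideal.span {(NP P : 𝓞 K)})),
      ← map_one (phi K), mk_phi]
    exact ⟨-b, by linear_combination hab⟩
  exact ⟨(IsUnit.of_mul_eq_one _ h1).unit, rfl⟩

/-- the relation between the classes and the automorphisms -/
def Rl (K : Type) [Field K] [NumberField K] [IsCyclotomicExtension {3} ℚ K] {F : Type} [Field F]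
    [NumberField F] [Algebra K F] (x : ι → 𝓞 F) (D : ι → ℕ) (P : Finset ℕ)
    (u : (𝓞 K ⧸ Ideal.span {(NP P : 𝓞 K)})ˣ) (g : Gal(F/K)) : Prop :=
  ∃ α : Ei, (u : 𝓞 K ⧸ Ideal.span {(NP P : 𝓞 K)}) = Ideal.Quotient.mk _ (phi K α) ∧
    ∀ i, ze K x g i = XD (D i) α

section

variable (h : Dt K F x D P)

include h

lemma XD_congr {α β : Ei} {u : (𝓞 K ⧸ Ideal.span {(NP P : 𝓞 K)})ˣ}
    (hα : (u : 𝓞 K ⧸ Ideal.span {(NP P : 𝓞 K)}) = Ideal.Quotient.mk _ (phi K α))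
    (hβ : (u : 𝓞 K ⧸ Ideal.span {(NP P : 𝓞 K)}) = Ideal.Quotient.mk _ (phi K β)) (i : ι) :
    XD (D i) α = XD (D i) β := by
  rw [← sum_XD h, ← sum_XD h]
  refine Finset.sum_congr rfl fun p hp => ?_
  have h1 : (NP P : Ei) ∣ α - β := by
    rw [← mk_phi (K := K), ← hα, hβ]
  rw [sy_congr (h.p1 p hp) (cp_unit h.p1 hα p hp) ((NP_dvd hp).trans h1)]

lemma Rl.ex (u : (𝓞 K ⧸ Ideal.span {(NP P : 𝓞 K)})ˣ) : ∃ g, Rl K x D P u g := by
  obtain ⟨a, ha⟩ := Ideal.Quotient.mk_surjective (u : 𝓞 K ⧸ Ideal.span {(NP P : 𝓞 K)})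
  obtain ⟨α, rfl⟩ := (phi K).surjective a
  obtain ⟨g, hg⟩ := exists_g h fun p => sy p α
  exact ⟨g, α, ha.symm, fun i => by rw [hg, sum_XD h]⟩

lemma Rl.uniq {u : (𝓞 K ⧸ Ideal.span {(NP P : 𝓞 K)})ˣ} {g g' : Gal(F/K)}
    (h1 : Rl K x D P u g) (h2 : Rl K x D P u g') : g = g' := by
  obtain ⟨α, ha, hg⟩ := h1
  obtain ⟨β, hb, hg'⟩ := h2
  exact ze_inj' h fun i => by rw [hg, hg', XD_congr h ha hb]

lemma cp_D {α : Ei} (hα : ∀ p ∈ P, Cp p α) (i : ι) : ∀ p ∈ (D i).primeFactors, Cp p α :=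
  fun p hp => hα p (h.supp i hp)

lemma Rl.mul {u u' : (𝓞 K ⧸ Ideal.span {(NP P : 𝓞 K)})ˣ} {g g' : Gal(F/K)}
    (h1 : Rl K x D P u g) (h2 : Rl K x D P u' g') : Rl K x D P (u * u') (g * g') := by
  obtain ⟨α, ha, hg⟩ := h1
  obtain ⟨β, hb, hg'⟩ := h2
  refine ⟨α * β, by rw [Units.val_mul, ha, hb, map_mul, map_mul], fun i => ?_⟩
  rw [ze_mul h, hg, hg', XD_add (h.g9 i).sp (cp_D h (cp_unit h.p1 ha) i)
    (cp_D h (cp_unit h.p1 hb) i)]

lemma Rl.one : Rl K x D P 1 (1 : Gal(F/K)) :=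
  ⟨1, by rw [Units.val_one, map_one, map_one], fun i => by
    rw [ze_one h, XD_one' (h.g9 i).sp]⟩

/-- the Artin map -/
noncomputable def art : (𝓞 K ⧸ Ideal.span {(NP P : 𝓞 K)})ˣ →* Gal(F/K) where
  toFun u := (Rl.ex h u).choose
  map_one' := Rl.uniq h (Rl.ex h 1).choose_spec (Rl.one h)
  map_mul' u u' := Rl.uniq h (Rl.ex h (u * u')).choose_spec
    (Rl.mul h (Rl.ex h u).choose_spec (Rl.ex h u').choose_spec)

lemma art_spec (u : (𝓞 K ⧸ Ideal.span {(NP P : 𝓞 K)})ˣ) : Rl K x D P u (art h u) :=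
  (Rl.ex h u).choose_spec

lemma art_eq {u : (𝓞 K ⧸ Ideal.span {(NP P : 𝓞 K)})ˣ} {g : Gal(F/K)} (h1 : Rl K x D P u g) :
    art h u = g := Rl.uniq h (art_spec h u) h1

/-- an element with given symbols -/
lemma exists_el (t : ℕ → ZMod 3) : ∃ α : Ei, IsCoprime α (NP P : Ei) ∧ ∀ p ∈ P, sy p α = t p := by
  have h1 : ∀ p ∈ P, ∃ α : Ei, IsCoprime α (NP P : Ei) ∧ (∀ q ∈ P, Cp q α) ∧
      ∀ q ∈ P, sy q α = if q = p then t p else 0 := by
    intro p hp
    obtain ⟨m, α, hm, hd, hc, hn, hz⟩ := loc_el h.p1 hp (π := pp p) (Or.inl rfl) (t p)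
    obtain ⟨h2, h3⟩ := sy_loc h.p1 hp (π := pp p) (Or.inl rfl) hm hd hn
    refine ⟨α, hc, h2, fun q hq => ?_⟩
    rw [h3 q hq, hz]
  choose! α hc hcp hs using h1
  refine ⟨∏ p ∈ P, α p, IsCoprime.prod_left hc, fun q hq => ?_⟩
  have h2 : ∀ S : Finset ℕ, S ⊆ P → Cp q (∏ p ∈ S, α p) ∧
      sy q (∏ p ∈ S, α p) = ∑ p ∈ S, sy q (α p) := by
    intro S
    induction S using Finset.induction_on with
    | empty =>
      intro _
      rw [Finset.prod_empty, Finset.sum_empty]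
      exact ⟨Cp.unit (h.p1 q hq) isUnit_one, sy_one (h.p1 q hq)⟩
    | insert a S ha ih =>
      intro hS
      obtain ⟨h3, h4⟩ := ih fun b hb => hS (Finset.mem_insert_of_mem hb)
      have h5 := hcp a (hS (Finset.mem_insert_self _ _)) q hq
      rw [Finset.prod_insert ha, Finset.sum_insert ha]
      exact ⟨h5.mul (h.p1 q hq) h3, by rw [sy_mul (h.p1 q hq) h5 h3, h4]⟩
  rw [(h2 P subset_rfl).2, Finset.sum_congr rfl fun p hp => hs p hp q hq,
    Finset.sum_ite_eq P q, if_pos hq]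

lemma art_surj : Function.Surjective (art h) := by
  intro g
  obtain ⟨t, ht⟩ := exists_t h g
  obtain ⟨α, hα, hs⟩ := exists_el h t
  obtain ⟨u, hu⟩ := isUnit_of_coprime (K := K) hα
  refine ⟨u, art_eq h ⟨α, hu, fun i => ?_⟩⟩
  rw [ht, ← sum_XD h]
  exact Finset.sum_congr rfl fun p hp => by rw [hs p hp]

lemma art_frob (π : 𝓞 K) (hπ : Prime π) (u : (𝓞 K ⧸ Ideal.span {(NP P : 𝓞 K)})ˣ)
    (hu : (u : 𝓞 K ⧸ Ideal.span {(NP P : 𝓞 K)}) = Ideal.Quotient.mk _ π)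
    (v : HeightOneSpectrum (𝓞 F)) (hv : algebraMap (𝓞 K) (𝓞 F) π ∈ v.asIdeal) (y : 𝓞 F) :
    art h u • y - y ^ Nat.card (𝓞 K ⧸ Ideal.span {π}) ∈ v.asIdeal := by
  obtain ⟨ρ, rfl⟩ := (phi K).surjective π
  have hρ : Prime ρ := (MulEquiv.prime_iff (phi K)).1 hπ
  have hcp := cp_unit h.p1 hu
  -- the Frobenius automorphism
  have hmax : (Ideal.span {phi K ρ}).IsMaximal := by
    have h1 : (Ideal.span {phi K ρ}).IsPrime := (Ideal.span_singleton_prime hπ.ne_zero).mpr hπ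
    exact h1.isMaximal (by simpa using hπ.ne_zero)
  have hunder : v.asIdeal.under (𝓞 K) = Ideal.span {phi K ρ} := by
    refine (hmax.eq_of_le (Ideal.IsPrime.ne_top inferInstance) ?_).symm
    rw [Ideal.span_singleton_le_iff_mem]
    exact hv
  have hfin : Finite (𝓞 F ⧸ v.asIdeal) := Ideal.finiteQuotientOfFreeOfNeBot _ v.ne_bot
  obtain ⟨σ, hσ⟩ := IsArithFrobAt.exists_of_isInvariant (𝓞 K) Gal(F/K) v.asIdeal
  have hσ' : ∀ y : 𝓞 F, σ • y - y ^ (nr ρ).natAbs ∈ v.asIdeal := by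
    intro y
    have := hσ y
    rw [hunder, card_phi] at this
    exact this
  have hσa : art h u = σ := by
    apply art_eq h
    refine ⟨ρ, hu, fun i => frob_ze h hρ hv hσ' i fun hd => ?_⟩
    have h1 : (D i : 𝓞 F) ∈ v.asIdeal := by
      rw [← io_nat (K := K)]
      exact (io_mem hρ hv _).2 hd
    obtain ⟨p, hp, h2⟩ := exists_prime_mem v.isPrime (h.g9 i).sp.1 h1
    rw [← io_nat (K := K), io_mem hρ hv, ← pp_mul (h.p1 p (h.supp i hp))] at h2
    have h3 := hcp p (h.supp i hp)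
    have h4 := (pp_spec (h.p1 p (h.supp i hp))).1
    rcases hρ.dvd_or_dvd h2 with h5 | h5
    · exact h3.1 ((hρ.dvd_prime_iff_associated h4.prime).1 h5).symm.dvd
    · exact h3.2 ((hρ.dvd_prime_iff_associated (pq_star h4).prime).1 h5).symm.dvd
  rw [hσa, card_phi]
  exact hσ' y

theorem isArtin : IsArtin (NP P : 𝓞 K) (art h) where
  surj := art_surj h
  unr v hv := unr h (by rwa [map_natCast] at hv)
  frob := art_frob h

/-- the local conditions -/
theorem isLoc : IsLoc (NP P : 𝓞 K) (art h) := by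
  intro v₀ c₁ c₂ hc h1 h2 w hlo g
  have hw : ∀ a : 𝓞 K, a ∈ v₀.asIdeal ↔ algebraMap (𝓞 K) (𝓞 F) a ∈ w.asIdeal :=
    fun a => mem_under_of_lies hlo a
  have hN0 : (NP P : 𝓞 K) ≠ 0 := by
    have : NP P ≠ 0 := Finset.prod_ne_zero_iff.2 fun q hq => (h.p1 q hq).prime.ne_zero
    exact_mod_cast this
  by_cases hv : (NP P : 𝓞 K) ∈ v₀.asIdeal
  · obtain ⟨p, hp, hpv⟩ : ∃ p ∈ P, (p : 𝓞 K) ∈ v₀.asIdeal := by
      unfold NP at hv
      push_cast at hv
      exact (v₀.isPrime.prod_mem_iff).1 hv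
    have hP1 := h.p1 p hp
    obtain ⟨π, ha, hπv⟩ : ∃ π : Ei, Ab p π ∧ phi K π ∈ v₀.asIdeal := by
      have h3 : phi K (pp p) * phi K (star (pp p)) ∈ v₀.asIdeal := by
        rw [← map_mul, pp_mul hP1, map_natCast]
        exact hpv
      rcases v₀.isPrime.mem_or_mem h3 with h4 | h4
      · exact ⟨_, Or.inl rfl, h4⟩
      · exact ⟨_, Or.inr rfl, h4⟩
    have hπ := ha.pq hP1
    have hπw : io K F π ∈ w.asIdeal := (hw _).1 hπv
    have hpw : (p : 𝓞 F) ∈ w.asIdeal := by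
      have := (hw _).1 hpv
      rwa [map_natCast] at this
    obtain ⟨γ₁, rfl⟩ := (phi K).surjective c₁
    obtain ⟨γ₂, rfl⟩ := (phi K).surjective c₂
    have hN : (NP P : Ei) = γ₁ * γ₂ := by
      apply (phi K).injective
      rw [map_mul, ← hc, map_natCast]
    obtain ⟨m, hm⟩ : π ∣ (NP P : Ei) := (Dvd.intro _ (ha.mul hP1)).trans (NP_dvd hp)
    obtain ⟨hm1, hm2, hm3⟩ := m_dvd h.p1 hp ha hm
    have h2' : ¬ π ∣ γ₂ := fun h3 => h2 ((phi_mem hπ.prime hπv _).2 h3)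
    obtain ⟨δ, hδ⟩ : π ∣ γ₁ := by
      have h3 : π ∣ γ₁ * γ₂ := by rw [← hN, hm]; exact dvd_mul_right _ _
      exact (hπ.prime.dvd_or_dvd h3).resolve_right h2'
    have hmδ : m = δ * γ₂ := by
      apply mul_left_cancel₀ hπ.prime.ne_zero
      rw [← hm, hN, hδ]
      ring
    have hm0 : m ≠ 0 := by
      rintro rfl
      rw [mul_zero] at hm
      apply hN0
      rw [← phi_NP, hm, map_zero]
    have hδ0 : δ ≠ 0 := fun h3 => hm0 (by rw [hmδ, h3, zero_mul])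
    have hδu : IsUnit δ := by
      by_contra hδu
      obtain ⟨ρ, hρi, hρd⟩ := WfDvdMonoid.exists_irreducible_factor hδu hδ0
      have hρ := hρi.prime
      have hsp : (Ideal.span {phi K ρ}).IsPrime :=
        (Ideal.span_singleton_prime (phi_prime hρ).ne_zero).2 (phi_prime hρ)
      let v : HeightOneSpectrum (𝓞 K) := ⟨Ideal.span {phi K ρ}, hsp, by
        simpa using (phi_prime (K := K) hρ).ne_zero⟩
      have h3 : v = v₀ := by
        apply h1
        rw [hδ]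
        change phi K (π * δ) ∈ Ideal.span {phi K ρ}
        rw [Ideal.mem_span_singleton, map_dvd_iff (phi K)]
        exact hρd.mul_left _
      have h4 : phi K ρ ∈ v₀.asIdeal := by
        rw [← h3]
        exact Ideal.mem_span_singleton_self _
      rw [phi_mem hπ.prime hπv] at h4
      have h5 : π ∣ m := by
        rw [hmδ]
        exact ((((hπ.prime.dvd_prime_iff_associated hρ).1 h4).dvd).trans hρd).mul_right _
      exact hπ.prime.not_isUnit (hm3.isUnit_of_dvd' dvd_rfl h5)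
    have hmγ : ∀ a : Ei, m ∣ a ↔ γ₂ ∣ a := by
      intro a
      rw [hmδ]
      obtain ⟨d, rfl⟩ := hδu
      exact Units.mul_left_dvd
    have hdv : ∀ a : Ei, phi K γ₂ ∣ phi K a - 1 ↔ m ∣ a - 1 := by
      intro a
      rw [hmγ, ← map_one (phi K), ← map_sub, map_dvd_iff (phi K)]
    have hval : ∀ α : Ei, m ∣ α - 1 → ¬ π ∣ α → ∀ i,
        XD (D i) α = ((D i).factorization p : ZMod 3) * cs π α := by
      intro α h3 h4 i
      obtain ⟨-, h5⟩ := sy_loc h.p1 hp ha hm h3 h4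
      rw [← sum_XD h, Finset.sum_eq_single p]
      · rw [h5 p hp, if_pos rfl]
      · intro q hq hne
        rw [h5 q hq, if_neg hne, mul_zero]
      · exact fun h6 => absurd hp h6
    constructor
    · intro hg
      obtain ⟨z, hz⟩ := ine_p h hp hpw hg
      obtain ⟨m', α, hm', hd, hcop, hn, hcs⟩ := loc_el h.p1 hp ha z
      have hmm : m' = m := mul_left_cancel₀ hπ.prime.ne_zero (hm'.symm.trans hm)
      rw [hmm] at hd
      obtain ⟨u, hu⟩ := isUnit_of_coprime (K := K) (P := P) hcop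
      refine ⟨u, phi K α, hu, (hdv α).2 hd, art_eq h ⟨α, hu, fun i => ?_⟩⟩
      rw [hz, hval α hd hn, hcs]
    · rintro ⟨u, a, hu, hd, rfl⟩
      obtain ⟨α, rfl⟩ := (phi K).surjective a
      rw [hdv] at hd
      have hcp := cp_unit h.p1 hu p hp
      have hn : ¬ π ∣ α := by
        rcases ha with rfl | rfl
        · exact hcp.1
        · exact hcp.2
      obtain ⟨β, hβ, hze⟩ := art_spec h u
      obtain ⟨g₀, hg₀, hne⟩ := ram_p h hp ha hπw
      obtain ⟨z, hz⟩ := ine_p h hp hpw hg₀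
      have hz0 : z ≠ 0 := by
        rintro rfl
        exact hne (ze_inj h fun i => by rw [hz, mul_zero])
      have hart : art h u = g₀ ^ (z * cs π α).val := by
        apply ze_inj' h
        intro i
        rw [hze, XD_congr h hβ hu, hval α hd hn, ze_pow h, ZMod.natCast_zmod_val, hz]
        have hzz : z * z = 1 := (by decide : ∀ z : ZMod 3, z ≠ 0 → z * z = 1) z hz0
        linear_combination (-((D i).factorization p : ZMod 3) * cs π α) * hzz
      rw [hart]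
      rw [← mem_ine] at hg₀ ⊢
      exact Subgroup.pow_mem _ hg₀ _
  · have hNw : (NP P : 𝓞 F) ∉ w.asIdeal := by
      intro h3
      apply hv
      rw [hw, map_natCast]
      exact h3
    have hc1 : IsUnit c₁ := by
      by_contra hcon
      have h3 : c₁ ≠ 0 := by
        rintro rfl
        apply hN0
        rw [hc, zero_mul]
      obtain ⟨M, hM, hM1⟩ := exists_max_ideal_of_mem_nonunits hcon
      let v : HeightOneSpectrum (𝓞 K) := ⟨M, hM.isPrime, fun h4 => h3 (by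
        rw [h4, Ideal.mem_bot] at hM1
        exact hM1)⟩
      have h4 : v = v₀ := h1 v hM1
      apply hv
      rw [hc, ← h4]
      exact v.asIdeal.mul_mem_right _ hM1
    constructor
    · intro hg
      have h3 := ine_trivial h hNw hg
      refine ⟨1, 1, by rw [Units.val_one, map_one], by rw [sub_self]; exact dvd_zero _, ?_⟩
      rw [h3, map_one]
    · rintro ⟨u, a, hu, hd, rfl⟩
      have h3 : u = 1 := by
        apply Units.ext
        rw [hu, Units.val_one, ← map_one (Ideal.Quotient.mk _), Ideal.Quotient.eq,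
          Ideal.mem_span_singleton, hc]
        obtain ⟨d, rfl⟩ := hc1
        exact (Units.mul_left_dvd).2 hd
      intro y
      rw [h3, map_one, one_smul, sub_self]
      exact w.asIdeal.zero_mem

end

end

end Pool.Agent.W2helper95.TQ.E3
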