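import Mathlib
import Pool.Agent.W2helper95.TQ.E3f

/-!
# Project TQ, piece E3 (helper95): fields generated by cube roots, the Artin map
-/

set_option autoImplicit false
set_option linter.unusedSectionVars false

namespace Pool.Agent.W2helper95.TQ.E3

open NumberField IsDedekindDomain
open Pool.Agent.Y692.QS
open Pool.Agent.Y715.T.RecG (Pq)
open Pool.Agent.Y350.CT (pq_star)
open Pool.Agent.W2helper24.TQ (GoodC IsLoc GenC DCls P_E3)
open scoped Classical

section

variable {K : Type} [Field K] [NumberField K] [IsCyclotomicExtension {3} ℚ K]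

lemma goodC {P : Finset ℕ} (hP : ∀ p ∈ P, p.Prime ∧ p % 12 = 7) : GoodC (NP P : 𝓞 K) := by
  have hP1 : ∀ p ∈ P, P1 p := fun p hp => ⟨(hP p hp).1, by have := (hP p hp).2; omega⟩
  have hN0 : NP P ≠ 0 := Finset.prod_ne_zero_iff.2 fun q hq => (hP q hq).1.ne_zero
  refine ⟨by exact_mod_cast hN0, ?_, fun v₀ hv x hx => ?_⟩
  · have h1 : Nat.Coprime (NP P) 6 := by
      refine Nat.Coprime.prod_left fun q hq => ?_
      rw [(hP q hq).1.coprime_iff_not_dvd]
      intro hd
      have h2 := Nat.le_of_dvd (by norm_num) hd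
      have h3 := (hP q hq).2
      omega
    obtain ⟨a, b, hab⟩ := Nat.isCoprime_iff_coprime.2 h1
    have h2 := congrArg (fun z : ℤ => (z : 𝓞 K)) hab
    push_cast at h2
    exact ⟨a, b, h2⟩
  · obtain ⟨p, hp, hpv⟩ : ∃ p ∈ P, (p : 𝓞 K) ∈ v₀.asIdeal := by
      unfold NP at hv
      push_cast at hv
      exact (v₀.isPrime.prod_mem_iff).1 hv
    have hp1 := hP1 p hp
    obtain ⟨π, ha, hπv⟩ : ∃ π : Ei, Ab p π ∧ phi K π ∈ v₀.asIdeal := by
      have h3 : phi K (pp p) * phi K (star (pp p)) ∈ v₀.asIdeal := by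
        rw [← map_mul, pp_mul hp1, map_natCast]
        exact hpv
      rcases v₀.isPrime.mem_or_mem h3 with h4 | h4
      · exact ⟨_, Or.inl rfl, h4⟩
      · exact ⟨_, Or.inr rfl, h4⟩
    have hspan := span_und (ha.pq hp1).prime hπv
    have hmax : v₀.asIdeal.IsMaximal := v₀.isPrime.isMaximal v₀.ne_bot
    let _ : Field (𝓞 K ⧸ v₀.asIdeal) := Ideal.Quotient.field _
    have hfin : Finite (𝓞 K ⧸ v₀.asIdeal) := Ideal.finiteQuotientOfFreeOfNeBot _ v₀.ne_bot
    let _ : Fintype (𝓞 K ⧸ v₀.asIdeal) := Fintype.ofFinite _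
    have hcard : Fintype.card (𝓞 K ⧸ v₀.asIdeal) = p := by
      rw [← Nat.card_eq_fintype_card, hspan, card_phi, ha.nr hp1]
      simp
    have h1 : IsSquare (-1 : 𝓞 K ⧸ v₀.asIdeal) := by
      refine ⟨Ideal.Quotient.mk _ x, ?_⟩
      have h2 := (Ideal.Quotient.eq_zero_iff_mem).2 hx
      rw [map_add, map_pow, map_one] at h2
      linear_combination -h2
    rw [FiniteField.isSquare_neg_one_iff, hcard] at h1
    have := (hP p hp).2
    omega

end

lemma DCls.g9 {D : ℕ} (h : DCls D) : G9 D := by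
  have hsp : Sp D := ⟨h.1.ne', fun p hp hd => by have := (h.2.1 p hp hd).1; omega⟩
  refine ⟨hsp, ?_⟩
  have h1 := Sp.mod D hsp
  have h2 := h.2.2
  omega

/-- finitely many generators -/
theorem exists_dt {K F : Type} [Field K] [NumberField K] [IsCyclotomicExtension {3} ℚ K]
    [Field F] [NumberField F] [Algebra K F] (hgen : GenC K F) :
    ∃ (ι : Type) (_ : Fintype ι) (x : ι → 𝓞 F) (D : ι → ℕ) (P : Finset ℕ),
      Dt K F x D P ∧ ∀ p ∈ P, p.Prime ∧ p % 12 = 7 := by
  obtain ⟨S, hS, hx⟩ := hgen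
  -- a finite set of generators
  obtain ⟨T, hTS, hT⟩ : ∃ T : Finset F, (T : Set F) ⊆ S ∧
      IntermediateField.adjoin K (T : Set F) = ⊤ := by
    have : FiniteDimensional K F := inferInstance
    let b := Module.finBasis K F
    have h1 : ∀ i, ∃ T : Finset F, (T : Set F) ⊆ S ∧ b i ∈ IntermediateField.adjoin K (T : Set F) := by
      intro i
      exact IntermediateField.exists_finset_of_mem_adjoin (by rw [hS]; exact IntermediateField.mem_top)
    choose T hTS hT using h1
    refine ⟨Finset.univ.biUnion T, ?_, ?_⟩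
    · intro y hy
      simp only [Finset.coe_biUnion, Set.mem_iUnion] at hy
      obtain ⟨i, -, hi⟩ := hy
      exact hTS i hi
    · rw [eq_top_iff]
      intro y _
      rw [← b.sum_repr y]
      refine sum_mem fun i _ => ?_
      refine (IntermediateField.adjoin K ((Finset.univ.biUnion T : Finset F) : Set F)).smul_mem ?_
      refine IntermediateField.adjoin.mono (F := K) (E := F) _ _ ?_ (hT i)
      intro z hz
      simp only [Finset.coe_biUnion, Set.mem_iUnion]
      exact ⟨i, Finset.mem_coe.2 (Finset.mem_univ i), hz⟩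
  have hxT : ∀ y : {y // y ∈ T}, ∃ D : ℕ, DCls D ∧ (y : F) ^ 3 = (D : F) := fun y => hx _ (hTS y.2)
  choose D hD hDx using hxT
  have hint : ∀ y : {y // y ∈ T}, ∃ z : 𝓞 F, (z : F) = (y : F) := by
    intro y
    have h1 : IsIntegral ℤ (y : F) := by
      apply IsIntegral.of_pow (n := 3) (by norm_num)
      rw [hDx y]
      exact isIntegral_natCast (D y)
    exact ⟨⟨(y : F), h1⟩, rfl⟩
  choose x hxx using hint
  let P : Finset ℕ := Finset.univ.biUnion fun y : {y // y ∈ T} => (D y).primeFactors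
  have hPm : ∀ p, p ∈ P ↔ ∃ y : {y // y ∈ T}, p ∈ (D y).primeFactors := by
    intro p
    simp [P]
  have hP : ∀ p ∈ P, p.Prime ∧ p % 12 = 7 := by
    intro p hp
    obtain ⟨y, hy⟩ := (hPm p).1 hp
    exact ⟨Nat.prime_of_mem_primeFactors hy,
      ((hD y).2.1 p (Nat.prime_of_mem_primeFactors hy) (Nat.dvd_of_mem_primeFactors hy)).1⟩
  have h : Dt K F x D P := by
    refine ⟨fun y => ?_, fun y => DCls.g9 (hD y), ?_, fun p hp => ⟨(hP p hp).1, ?_⟩, fun y => ?_,
      fun p hp => ?_, fun y p hp hd => ?_⟩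
    · apply RingOfIntegers.ext
      change algebraMap (𝓞 F) F (x y ^ 3) = algebraMap (𝓞 F) F ((D y : ℕ) : 𝓞 F)
      rw [map_pow, map_natCast, show algebraMap (𝓞 F) F (x y) = (y : F) from hxx y, hDx y]
    · rw [← hT]
      congr 1
      ext z
      constructor
      · rintro ⟨y, rfl⟩
        change ((x y : 𝓞 F) : F) ∈ (T : Set F)
        rw [hxx y]
        exact y.2
      · intro hz
        exact ⟨⟨z, hz⟩, hxx _⟩
    · have := (hP p hp).2
      omega
    · intro p hp
      exact (hPm p).2 ⟨y, hp⟩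
    · obtain ⟨y, hy⟩ := (hPm p).1 hp
      exact ⟨y, Nat.dvd_of_mem_primeFactors hy⟩
    · exact ((hD y).2.1 p hp ((dvd_pow_self p (by norm_num)).trans hd)).2 hd
  exact ⟨{y // y ∈ T}, inferInstance, x, D, P, h, hP⟩

/-- **PIECE E3** -/
theorem piece : P_E3 := by
  intro K F _ _ _ _ _ _ _ hgen
  obtain ⟨ι, _, x, D, P, h, hP⟩ := exists_dt (K := K) (F := F) hgen
  exact ⟨(NP P : 𝓞 K), art h, goodC hP, isArtin h, isLoc h⟩

end Pool.Agent.W2helper95.TQ.E3
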